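import Pool.Agent.Lib.MP_2b5695_lc.RO.Small
import Pool.Agent.Lib.MP_2b5695_lc.Nw.Easy

/-!
Project RO: the theorem from the pieces.
-/

namespace Pool.Agent.Lib.MP_2b5695_lc.RO

open Pool.Agent.Lib.MP_2b5695_lc.Alg Finset MeasureTheory

theorem ind_set (ω : List Bool → Bool) : ind {w | ω w = true} = ω := by
  funext w
  unfold ind
  cases h : ω w <;> simp [h]

theorem ind_holds {ι κ : Ty} {i : ℕ} (S : SCode ι i κ) (O : ι.El → Bool) (B : Set κ.El)
    (h : ∀ q, q ∈ B ↔ S.holds O q) : ind B = S.dec O := by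
  classical
  funext q
  unfold ind SCode.dec
  exact decide_eq_decide.2 (h q)

theorem countable_poly : Countable (Polynomial ℕ) := by
  have h : Function.Injective
      (fun p : Polynomial ℕ => (List.range (p.natDegree + 1)).map p.coeff) := by
    intro p q hpq
    have hlen := congrArg List.length hpq
    simp only [List.length_map, List.length_range] at hlen
    ext i
    by_cases hi : i < p.natDegree + 1
    · have h1 := congrArg (fun l : List ℕ => l[i]?) hpq
      simp only [List.getElem?_map] at h1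
      rw [List.getElem?_range hi, List.getElem?_range (by omega)] at h1
      simpa using h1
    · rw [Polynomial.coeff_eq_zero_of_natDegree_lt (by omega),
        Polynomial.coeff_eq_zero_of_natDegree_lt (by omega)]
  exact h.countable

theorem main (h : Pcs2) : ∀ᵐ ω ∂coin, ∀ i : ℕ, ∃ (C : ℕ → ℕ → Prop) (ρ : ℕ → ℕ),
    OptProblem (ι := .word) {w | ω w = true} i C ρ ∧
      ¬ Computed (ι := .word) {w | ω w = true} i C ρ := by
  obtain ⟨p, hp⟩ := h.mem.2
  obtain ⟨hc1, hc2, hc3⟩ := h.cnt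
  -- the index type
  let J : Type := Σ i : ℕ, Σ κ : Ty, SCode .word i κ ×
    Code κ (.prod .word (.prod .word .word)) .word × Polynomial ℕ
  have hJ : Countable J := by
    have := countable_poly
    infer_instance
  have hnull : ∀ x : J, ∀ᵐ ω ∂coin, ¬ ∀ (c : List Bool) (n : ℕ),
      ω ∈ Ev x.1 x.2.1 x.2.2.1 x.2.2.2.1 x.2.2.2.2 p c n := by
    rintro ⟨i, κ, S, C, r⟩
    rw [ae_iff]
    simp only [not_not]
    refine le_antisymm (ENNReal.le_of_forall_pos_le_add fun ε hε _ => ?_) bot_le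
    obtain ⟨c, n, hcn⟩ := small_Ev h i κ S C r p hp (ε := (ε : ℝ)) (by exact_mod_cast hε)
    have h1 : coin {ω | ∀ (c : List Bool) (n : ℕ), ω ∈ Ev i κ S C r p c n} ≤
        coin (Ev i κ S C r p c n) := measure_mono fun ω hω => hω c n
    refine h1.trans ?_
    rw [zero_add]
    have h2 : coin (Ev i κ S C r p c n) ≤ ENNReal.ofReal (ε : ℝ) := by
      rw [← ENNReal.ofReal_toReal (measure_ne_top coin (Ev i κ S C r p c n))]
      exact ENNReal.ofReal_le_ofReal hcn
    simpa using h2
  filter_upwards [ae_all_iff.2 hnull] with ω hω i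
  by_contra hcon
  push Not at hcon
  obtain ⟨κ, B, hB, hR⟩ := h.mem.1 {w | ω w = true} i
  rw [ind_set] at hR
  obtain ⟨κ', B', hB', r, D, hD, hE⟩ := Nw.easy_level hcon hB hR p
  obtain ⟨C, hC⟩ := h.cod.1 κ' B' (.prod .word (.prod .word .word)) .word D hD
  obtain ⟨S, hS⟩ := h.cod.2 .word {w | ω w = true} i κ' _ hB'
  rw [ind_set] at hS
  have h1 := ind_holds S ω B' hS
  obtain rfl : D = fun v => C.eval (S.dec ω) v := by
    funext v
    rw [← hC v, h1]
  refine hω ⟨i, κ', S, C, r⟩ fun c n => ?_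
  obtain ⟨α, hα1, hα2⟩ := hE c n 2
  exact ⟨α, hα1, hα2⟩

end Pool.Agent.Lib.MP_2b5695_lc.RO
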