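import Pool.Agent.Lib.MP_2b5695_lc.RO.Ct
import Pool.Agent.Lib.MP_2b5695_lc.RO.Final
import Pool.Agent.Lib.MP_2b5695_lc.RO.P.Bi
import Pool.Agent.Lib.MP_2b5695_lc.RO.P.Cmp
import Pool.Agent.Lib.MP_2b5695_lc.RO.P.Cnt
import Pool.Agent.Lib.MP_2b5695_lc.RO.P.Cod
import Pool.Agent.Lib.MP_2b5695_lc.RO.P.Col
import Pool.Agent.Lib.MP_2b5695_lc.RO.P.Dep
import Pool.Agent.Lib.MP_2b5695_lc.RO.P.End
import Pool.Agent.Lib.MP_2b5695_lc.RO.P.Kap
import Pool.Agent.Lib.MP_2b5695_lc.RO.P.Law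
import Pool.Agent.Lib.MP_2b5695_lc.RO.P.Lev
import Pool.Agent.Lib.MP_2b5695_lc.RO.P.Mea
import Pool.Agent.Lib.MP_2b5695_lc.RO.P.Mem
import Pool.Agent.Lib.MP_2b5695_lc.RO.P.N0
import Pool.Agent.Lib.MP_2b5695_lc.RO.P.N1
import Pool.Agent.Lib.MP_2b5695_lc.RO.P.Num
import Pool.Agent.Lib.MP_2b5695_lc.RO.P.Nx
import Pool.Agent.Lib.MP_2b5695_lc.RO.P.Par
import Pool.Agent.Lib.MP_2b5695_lc.RO.P.Qb
import Pool.Agent.Lib.MP_2b5695_lc.RO.P.Res
import Pool.Agent.Lib.MP_2b5695_lc.RO.P.Sub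
import Pool.Agent.Lib.MP_2b5695_lc.RO.P.Sw
import Pool.Agent.Lib.MP_2b5695_lc.RO.P.Tail
import Pool.Agent.Lib.MP_2b5695_lc.RO.P.Tz
import Pool.Agent.Lib.MP_2b5695_lc.RO.P.Val
import Pool.Agent.Lib.MP_2b5695_lc.RO.P.Vl

/-!
Project RO: all pieces together.
-/

namespace Pool.Agent.Lib.MP_2b5695_lc.RO

open Pool.Agent.Lib.MP_2b5695_lc.Alg MeasureTheory

theorem pcs : Pcs where
  tz := tz
  bi := bi
  nx := nx
  res := res
  kap := kap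
  sw := sw
  sub := sub
  clp := clp
  col := col
  tail := tail
  law := law
  n0 := n0
  n1 := n1
  end_ := endT
  cmp := cmp
  vl := vl
  par := par

theorem pcs2 : Pcs2 where
  qb := qb
  num := num
  mono := mono
  lev := lev
  dep := dep
  mem := mem
  val := val
  inj := inj
  par := par
  ct := ct pcs
  wit := wit pcs
  mea := mea
  cod := cod
  cnt := cnt

theorem all_levels : ∀ᵐ ω ∂coin, ∀ i : ℕ, ∃ (C : ℕ → ℕ → Prop) (ρ : ℕ → ℕ),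
    OptProblem (ι := .word) {w | ω w = true} i C ρ ∧
      ¬ Computed (ι := .word) {w | ω w = true} i C ρ := main pcs2

end Pool.Agent.Lib.MP_2b5695_lc.RO
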