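import Pool.Agent.Lib.MP_2b5695_lc.RO.Stmts

/-!
Project RO: basic facts about the weights.
-/

namespace Pool.Agent.Lib.MP_2b5695_lc.RO

open Finset

theorem bn_nn {X : Type} [Fintype X] {t : ℝ} (h0 : 0 ≤ t) (h1 : t ≤ 1) (v : X → Bool) :
    0 ≤ bn t v := by
  unfold bn
  refine Finset.prod_nonneg fun x _ => ?_
  split_ifs
  · exact h0
  · linarith

theorem sum_bn {X : Type} [Fintype X] [DecidableEq X] (t : ℝ) :
    ∑ v : X → Bool, bn t v = 1 := by
  unfold bn
  have h := Finset.prod_univ_sum (fun _ : X => (Finset.univ : Finset Bool))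
    (fun _ b => if b then t else 1 - t)
  rw [Fintype.piFinset_univ] at h
  rw [← h]
  simp

theorem Ok.total {A0 X : Type} [Fintype A0] [Nonempty A0] [Fintype X] [DecidableEq X] {t : ℝ}
    {Γ : World A0 X} {ν : St → ℝ} {V : A0 → X → Bool} (h : Ok t Γ ν V) : ∑ o, Γ.wt o = 1 := by
  have h1 := h.unif fun _ => 1
  simp only [mul_one, sum_bn, Finset.sum_const, Finset.card_univ, nsmul_eq_mul] at h1
  rw [h1]
  have : (Fintype.card A0 : ℝ) ≠ 0 := by exact_mod_cast Fintype.card_ne_zero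
  field_simp

end Pool.Agent.Lib.MP_2b5695_lc.RO
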