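import Pool.Agent.Lib.MP_2b5695_lc.RO.Base

/-!
Project RO: the main combinatorial theorem from the pieces.
-/

namespace Pool.Agent.Lib.MP_2b5695_lc.RO

open Finset

/-- the world of the bits: all bits are free -/
noncomputable def G0 (X : Type) : World (X → Bool) X :=
  { Om := Unit, wt := fun _ => 1, st := fun _ _ => .live, B := fun _ v => v }

theorem ok_G0 (X : Type) [Fintype X] [DecidableEq X] :
    Ok (1 / 2) (G0 X) (fun s => if s = .live then 1 else 0) (fun a => a) where
  nonneg := fun o => by simp [G0]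
  unif := fun f => by
    have h1 : ∀ v : X → Bool, bn (1 / 2) v = 1 / 2 ^ Fintype.card X := by
      intro v
      unfold bn
      have : ∀ x, (if v x then (1 / 2 : ℝ) else 1 - 1 / 2) = 1 / 2 := by
        intro x; split_ifs <;> norm_num
      rw [Finset.prod_congr rfl fun x _ => this x, Finset.prod_const, Finset.card_univ]
      rw [one_div, one_div, inv_pow]
    have h2 : (Fintype.card (X → Bool) : ℝ) = 2 ^ Fintype.card X := by
      rw [Fintype.card_fun, Fintype.card_bool]; push_cast; rfl
    show ∑ _o : Unit, (1 : ℝ) * ∑ v, bn (1 / 2) v * f v = _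
    simp only [h1, h2]
    simp [div_eq_inv_mul, Finset.mul_sum]
  insens := fun o v v' h => funext fun x => h x rfl
  value := fun o _ v x => rfl
  law := fun f => by
    have h1 : ∀ s : X → St, (∏ x, (if s x = .live then (1 : ℝ) else 0)) =
        if s = fun _ => .live then 1 else 0 := by
      intro s
      by_cases hs : s = fun _ => .live
      · subst hs; simp
      · rw [if_neg hs]
        have : ∃ x, s x ≠ .live := by
          by_contra hc
          push Not at hc
          exact hs (funext hc)
        obtain ⟨x, hx⟩ := this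
        exact Finset.prod_eq_zero (Finset.mem_univ x) (if_neg hx)
    show ∑ _o : Unit, (1 : ℝ) * f (fun _ => .live) = _
    simp only [h1]
    simp

section

variable {A0 X W : Type} [Fintype A0] [Nonempty A0] [Fintype X] [DecidableEq X]
  [Fintype W] [DecidableEq W]

open Classical in
/-- the probability that the functions are not of level `m` -/
noncomputable def bad (M s m : ℕ) {X Q : Type} (Γ : World A0 X) (F : Q → A0 → Bool) : ℝ :=
  ∑ o, if Lev M s m Q (fun q v => F q (Γ.B o v)) then 0 else Γ.wt o

open Classical in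
/-- the probability that some gate has few free children -/
noncomputable def few (Lm : ℕ) (Γ : World A0 (X × W)) : ℝ :=
  ∑ o, if ∃ x, nL (fun w => Γ.st o (x, w)) < Lm then Γ.wt o else 0

omit [Nonempty A0] in
open Classical in
theorem few_le {t : ℝ} {Lm : ℕ} {Γ : World A0 (X × W)} {ν : St → ℝ} {V : A0 → X × W → Bool}
    (hΓ : Ok t Γ ν V) (hν : ∀ s, 0 ≤ ν s) (hν1 : ∑ s, ν s = 1) :
    few Lm Γ ≤ Fintype.card X * ∑ c : W → St, if nL c < Lm then ∏ w, ν (c w) else 0 := by
  have h1 := hΓ.law fun s => if ∃ x, nL (fun w => s (x, w)) < Lm then 1 else 0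
  have h2 : few Lm Γ = ∑ s : X × W → St, (∏ y, ν (s y)) *
      if ∃ x, nL (fun w => s (x, w)) < Lm then 1 else 0 := by
    rw [← h1]
    unfold few
    refine Finset.sum_congr rfl fun o _ => ?_
    split_ifs <;> simp
  have h3 : ∀ x : X, ∑ s : X × W → St, (∏ y, ν (s y)) *
      (if nL (fun w => s (x, w)) < Lm then 1 else 0) =
      ∑ c : W → St, if nL c < Lm then ∏ w, ν (c w) else 0 := by
    intro x
    have e := (Equiv.curry X W St)
    have h4 : ∑ s : X × W → St, (∏ y, ν (s y)) *
        (if nL (fun w => s (x, w)) < Lm then 1 else 0) =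
        ∑ s : X → W → St, ∏ x', ((∏ w, ν (s x' w)) *
          if x' = x then (if nL (s x') < Lm then 1 else 0) else 1) := by
      refine Fintype.sum_equiv (Equiv.curry X W St) _ _ fun s => ?_
      rw [Finset.prod_mul_distrib, Fintype.prod_prod_type]
      congr 1
      rw [Finset.prod_ite_eq']
      simp only [Finset.mem_univ, if_true]
      rfl
    rw [h4]
    have h5 := Finset.prod_univ_sum (fun _ : X => (Finset.univ : Finset (W → St)))
      (fun x' c => (∏ w, ν (c w)) * if x' = x then (if nL c < Lm then (1 : ℝ) else 0) else 1)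
    rw [Fintype.piFinset_univ] at h5
    rw [← h5]
    have h6 : ∀ x', ∑ c : W → St, (∏ w, ν (c w)) *
        (if x' = x then (if nL c < Lm then (1 : ℝ) else 0) else 1) =
        if x' = x then ∑ c : W → St, (if nL c < Lm then ∏ w, ν (c w) else 0) else 1 := by
      intro x'
      by_cases hx : x' = x
      · simp only [hx, if_true]
        refine Finset.sum_congr rfl fun c _ => ?_
        split_ifs <;> simp
      · simp only [hx, if_false, mul_one]
        have h7 := Finset.prod_univ_sum (fun _ : W => (Finset.univ : Finset St))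
          (fun _ s => ν s)
        rw [Fintype.piFinset_univ] at h7
        rw [← h7, hν1]
        simp
    rw [Finset.prod_congr rfl fun x' _ => h6 x']
    simp
  rw [h2]
  calc _ ≤ ∑ s : X × W → St, ∑ x : X, (∏ y, ν (s y)) *
        (if nL (fun w => s (x, w)) < Lm then 1 else 0) := by
        refine Finset.sum_le_sum fun s _ => ?_
        have hp : 0 ≤ ∏ y, ν (s y) := Finset.prod_nonneg fun y _ => hν _
        rw [← Finset.mul_sum]
        refine mul_le_mul_of_nonneg_left ?_ hp
        split_ifs with h
        · obtain ⟨x, hx⟩ := h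
          refine le_trans (by rw [if_pos hx]) (Finset.single_le_sum
            (f := fun x => if nL (fun w => s (x, w)) < Lm then (1 : ℝ) else 0)
            (fun x _ => by split_ifs <;> norm_num) (Finset.mem_univ x))
        · exact Finset.sum_nonneg fun x _ => by split_ifs <;> norm_num
    _ = _ := by
        rw [Finset.sum_comm, Finset.sum_congr rfl fun x _ => h3 x, Finset.sum_const,
          Finset.card_univ, nsmul_eq_mul]

open Classical in
/-- the last step -/
theorem last (htz : S_tz) (hbi : S_bi) (hnx : S_nx) (hres : S_res) (hend : S_end) (hcmp : S_cmp)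
    {t t' : ℝ} {Lm : ℕ} {Γ : World A0 (X × W)} {ν : St → ℝ} {V : A0 → X × W → Bool}
    (hP : Par t t' Lm) (hΓ : Ok t Γ ν V) {Q : Type} {M s k d : ℕ} {F : Q → A0 → Bool}
    {D : Fin k → Tree Q X} (hD : ∀ j, (D j).depth ≤ d) :
    (∑ a : A0, if Function.Injective (fun j => (D j).eval fun q => F q a) ∧
      ∀ j, up (V a) ((D j).eval fun q => F q a) = true then (1 : ℝ) else 0) / Fintype.card A0 ≤
    few Lm Γ + 2 ^ k * (bad M s 0 (Γ.next t t' Lm) F +
      (((k * (d * s) + k : ℕ) : ℝ) * t') ^ k) := by
  have hΓ' := hnx htz hbi A0 X W t t' Lm Γ ν V hP hΓ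
  set g : A0 → Fin k → X := fun a j => (D j).eval fun q => F q a with hg
  set f : A0 → ℝ := fun a => if Function.Injective (g a) ∧ ∀ j, up (V a) (g a j) = true
    then 1 else 0 with hf
  set out : A0 → Finset X := fun a => Finset.univ.image (g a) with hout
  have h1 := hres htz hbi A0 X W t t' Lm Γ ν V hP hΓ k out f
    (fun a => by simp only [hf]; split_ifs <;> norm_num)
    (fun a => by simp only [hf]; split_ifs <;> norm_num)
    (fun a ha => by
      have ha' : Function.Injective (g a) ∧ ∀ j, up (V a) (g a j) = true := by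
        by_contra hc
        exact ha (by simp only [hf, if_neg hc])
      refine ⟨?_, fun x hx => ?_⟩
      · refine Finset.card_image_le.trans (by simp)
      · obtain ⟨j, -, rfl⟩ := Finset.mem_image.1 hx
        exact ha'.2 j)
  refine h1.trans (add_le_add le_rfl (mul_le_mul_of_nonneg_left ?_ (by positivity)))
  have ht'0 : 0 ≤ t' := hP.pos'.le
  have ht'1 : t' ≤ 1 := hP.le'.trans (by norm_num)
  have key : ∀ o : (Γ.next t t' Lm).Om, (Γ.next t t' Lm).wt o * ∑ v, bn t' v *
      (f ((Γ.next t t' Lm).B o v) * if ∀ x ∈ out ((Γ.next t t' Lm).B o v),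
        (Γ.next t t' Lm).st o x = .live then 1 else 0) ≤
      (if Lev M s 0 Q (fun q v => F q ((Γ.next t t' Lm).B o v)) then 0
        else (Γ.next t t' Lm).wt o) +
      (Γ.next t t' Lm).wt o * (((k * (d * s) + k : ℕ) : ℝ) * t') ^ k := by
    intro o
    have hw := hΓ'.nonneg o
    have hX : (0 : ℝ) ≤ (((k * (d * s) + k : ℕ) : ℝ) * t') ^ k := by positivity
    split_ifs with hL
    · rw [zero_add]
      by_cases hz : (Γ.next t t' Lm).wt o = 0
      · rw [hz]; simp
      refine mul_le_mul_of_nonneg_left ?_ hw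
      have hDT : DT (k * (d * s)) fun (v : X → Bool) j => g ((Γ.next t t' Lm).B o v) j := by
        refine hcmp.2 X X k (d * s) _ fun j => ?_
        exact hcmp.1 X Q X d s (D j) (fun q v => F q ((Γ.next t t' Lm).B o v)) (hD j) hL
      have h2 := hend X t' ht'0 ht'1 k (k * (d * s)) _ hDT
      refine le_trans (Finset.sum_le_sum fun v _ => ?_) (h2.trans (le_of_eq ?_))
      · have hb := bn_nn ht'0 ht'1 v
        by_cases h3 : Function.Injective (g ((Γ.next t t' Lm).B o v)) ∧
            ∀ j, up (V ((Γ.next t t' Lm).B o v)) (g ((Γ.next t t' Lm).B o v) j) = true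
        · by_cases h4 : ∀ x ∈ out ((Γ.next t t' Lm).B o v), (Γ.next t t' Lm).st o x = .live
          · rw [if_pos h4]
            have h5 : Function.Injective (g ((Γ.next t t' Lm).B o v)) ∧
                ∀ j, v (g ((Γ.next t t' Lm).B o v) j) = true := by
              refine ⟨h3.1, fun j => ?_⟩
              have h6 := h3.2 j
              have h7 := hΓ'.value o hz v (g ((Γ.next t t' Lm).B o v) j)
              have h8 := h4 (g ((Γ.next t t' Lm).B o v) j)
                (Finset.mem_image_of_mem _ (Finset.mem_univ j))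
              rw [h8] at h7
              simp only [h6, St.val] at h7
              exact h7.symm
            rw [if_pos h5]
            simp only [hf, if_pos h3]
            simp
          · rw [if_neg h4]
            simp only [mul_zero]
            split_ifs
            · exact hb
            · exact le_rfl
        · simp only [hf, if_neg h3]
          simp only [zero_mul, mul_zero]
          split_ifs
          · exact hb
          · exact le_rfl
      · push_cast; ring
    · refine le_add_of_le_of_nonneg ?_ (mul_nonneg hw hX)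
      calc _ ≤ (Γ.next t t' Lm).wt o * ∑ v : X → Bool, bn t' v := by
            refine mul_le_mul_of_nonneg_left (Finset.sum_le_sum fun v _ => ?_) hw
            have hb := bn_nn ht'0 ht'1 v
            refine mul_le_of_le_one_right hb ?_
            have : f ((Γ.next t t' Lm).B o v) ≤ 1 := by
              simp only [hf]; split_ifs <;> norm_num
            have h0 : 0 ≤ f ((Γ.next t t' Lm).B o v) := by
              simp only [hf]; split_ifs <;> norm_num
            split_ifs
            · simpa using this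
            · simp
        _ = _ := by rw [sum_bn, mul_one]
  refine (Finset.sum_le_sum fun o _ => key o).trans (le_of_eq ?_)
  rw [Finset.sum_add_distrib, ← Finset.sum_mul, hΓ'.total, one_mul]
  rfl

end

/-- the next step from the bits is `W0` -/
theorem tβ_pos (β : ℕ) : 0 < tβ β := by unfold tβ; positivity

/-- all the pieces that are used -/
structure Pcs : Prop where
  tz : S_tz
  bi : S_bi
  nx : S_nx
  res : S_res
  kap : S_kap
  sw : S_sw
  sub : S_sub
  clp : S_clp
  col : S_col
  tail : S_tail
  law : S_law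
  n0 : S_n0
  n1 : S_n1
  end_ : S_end
  cmp : S_cmp
  vl : S_vl
  par : S_par

open Classical in
/-- the properties of the world of the gates in `Gt T ks` are passed on to the top gates -/
theorem chain_ok (h : Pcs) {β : ℕ} (hβ : 16 ≤ β) {A0 : Type} [Fintype A0] [Nonempty A0]
    {Q : Type} {M s : ℕ} {F : Q → A0 → Bool} (hs : 16 * (s : ℝ) ≤ (3 / 2) ^ β) :
    ∀ (ks : List ℕ) (T : Type) [Fintype T] [DecidableEq T] (m : ℕ) (Γ : World A0 (Gt T ks))
      (ν : St → ℝ) (V : A0 → Gt T ks → Bool), Gd β ks → Ok (tβ β) Γ ν V →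
      Num β (pOf β []) ν → ∃ ν', Ok (tβ β) (chain β ks Γ) ν' (fun a => topv ks (V a)) ∧
      Num β (pOf β ks) ν' ∧
      bad M s m (chain β ks Γ) F ≤ bad M s (m + ks.length) Γ F +
        ks.length * (2 ^ M * (1 / 2) ^ (β * s))
  | [], T, _, _, m, Γ, ν, V, _, hΓ, hν => by
    refine ⟨ν, hΓ, hν, ?_⟩
    simp [chain]
  | k :: ks, T, _, _, m, Γ, ν, V, hG, hΓ, hν => by
    obtain ⟨ν', h1, h2, h3⟩ := chain_ok h hβ (Q := Q) (M := M) (F := F) hs ks
      (T × (Fin k → Bool)) (m + 1) Γ ν V hG.1 hΓ hν
    obtain ⟨h4, h5, -⟩ := h.n1 h.bi h.law h.tail h.par β k ks ν' hβ hG h2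
    refine ⟨_, h.nx h.tz h.bi A0 T (Fin k → Bool) _ _ _ _ _ _ h4 h1, h5, ?_⟩
    have hst : (s : ℝ) * tβ β ≤ 1 / 2 := by
      have h6 : (3 / 2 : ℝ) ^ β * (1 / 2) ^ β ≤ 1 := by
        rw [← mul_pow]
        exact pow_le_one₀ (by norm_num) (by norm_num)
      have h7 : 0 < tβ β := tβ_pos β
      have h8 : 16 * (s : ℝ) * tβ β ≤ (3 / 2) ^ β * tβ β :=
        mul_le_mul_of_nonneg_right hs h7.le
      unfold tβ at *
      nlinarith
    have h6 := h.col h.bi h.kap h.sw h.clp A0 T (Fin k → Bool) Q (tβ β) (tβ β) (Lβ β)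
      (chain β ks Γ) ν' _ M s m F h4 h1 hst
    have h7 : (16 * s * (1 - tβ β) ^ Lβ β / tβ β) ^ s ≤ ((1 / 2 : ℝ) ^ (β * s)) := by
      rw [pow_mul]
      refine pow_le_pow_left₀ ?_ ?_ s
      · have : (0 : ℝ) ≤ 1 - tβ β := by have := h4.le; linarith
        have h8 := tβ_pos β
        positivity
      · have h8 : (1 - tβ β) ^ Lβ β ≤ Real.exp (-2 * β) := by
          have h9 : (1 - tβ β) ^ Lβ β ≤ Real.exp (-(tβ β)) ^ Lβ β := by
            refine pow_le_pow_left₀ (by have := h4.le; linarith) ?_ _
            have := Real.add_one_le_exp (-(tβ β))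
            linarith
          refine h9.trans (le_of_eq ?_)
          rw [← Real.exp_nat_mul]
          congr 1
          unfold Lβ tβ
          push_cast
          have : (2 : ℝ) ^ β * (1 / 2) ^ β = 1 := by rw [← mul_pow]; norm_num
          linear_combination (-2 * (β : ℝ)) * this
        have h10 : Real.exp (-2 * β) ≤ (1 / 6) ^ β := by
          have h11 : Real.exp (-2 * β) = Real.exp (-2) ^ β := by
            rw [← Real.exp_nat_mul]; congr 1; ring
          rw [h11]
          refine pow_le_pow_left₀ (Real.exp_pos _).le ?_ _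
          rw [Real.exp_neg, inv_le_comm₀ (Real.exp_pos _) (by norm_num)]
          have h12 : Real.exp 1 > 2.7 := by
            have := Real.exp_one_gt_d9; linarith
          have h13 : Real.exp 2 = Real.exp 1 * Real.exp 1 := by rw [← Real.exp_add]; norm_num
          rw [h13]
          nlinarith
        have h14 : (1 : ℝ) / tβ β = 2 ^ β := by
          unfold tβ; rw [one_div, one_div, inv_pow, inv_inv]
        calc 16 * s * (1 - tβ β) ^ Lβ β / tβ β
            = (16 * s) * ((1 - tβ β) ^ Lβ β) * (1 / tβ β) := by ring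
          _ ≤ (3 / 2) ^ β * (1 / 6) ^ β * 2 ^ β := by
              rw [h14]
              have h15 : 0 ≤ (1 - tβ β) ^ Lβ β := pow_nonneg (by have := h4.le; linarith) _
              exact mul_le_mul (mul_le_mul hs (h8.trans h10) h15 (by positivity)) le_rfl
                (by positivity) (by positivity)
          _ = (1 / 2) ^ β := by
              rw [← mul_pow, ← mul_pow]; norm_num
    have h8 : bad M s m (chain β (k :: ks) Γ) F ≤ bad M s (m + 1) (chain β ks Γ) F +
        2 ^ M * (1 / 2) ^ (β * s) := by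
      refine le_trans h6 (add_le_add le_rfl ?_)
      exact mul_le_mul_of_nonneg_left h7 (by positivity)
    refine (h8.trans (add_le_add h3 le_rfl)).trans (le_of_eq ?_)
    rw [List.length_cons, Nat.add_right_comm, Nat.add_assoc m, Nat.add_comm ks.length 1]
    push_cast
    ring

theorem nonempty_bits {X : Type} : Nonempty (X → Bool) := ⟨fun _ => false⟩

open Classical in
theorem ct (h : Pcs) : S_ct := by
  intro β ks T Q _ _ _ M s k d F D hβ hG hs1 hs hF hD
  have ht : tβ β = (1 / 2) ^ β := rfl
  obtain ⟨hP0, hN0⟩ := h.n0 h.bi h.law β hβ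
  have hOk0 := ok_G0 (Gt T ks × Fin (8 * β))
  have hOk1 : Ok (tβ β) (W0 β (Gt T ks)) _ (fun a => up a) :=
    h.nx h.tz h.bi _ (Gt T ks) (Fin (8 * β)) _ _ _ _ _ _ hP0 hOk0
  have hbad0 : bad M s ks.length (W0 β (Gt T ks)) F = 0 := by
    unfold bad
    refine Finset.sum_eq_zero fun o _ => if_pos ?_
    exact h.sub M s ks.length (Gt T ks) (Fin (8 * β)) Q F o.2 hF
  have hcard : (Fintype.card (Gt T ks × Fin (8 * β) → Bool) : ℝ) =
      2 ^ Fintype.card (Gt T ks × Fin (8 * β)) := by
    rw [Fintype.card_fun, Fintype.card_bool]; push_cast; rfl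
  have hcpos : (0 : ℝ) < 2 ^ Fintype.card (Gt T ks × Fin (8 * β)) := by positivity
  suffices hmain : (∑ a : Gt T ks × Fin (8 * β) → Bool,
      if Function.Injective (fun j => (D j).eval fun q => F q a) ∧
      ∀ j, topv ks (up a) ((D j).eval fun q => F q a) = true then (1 : ℝ) else 0) /
      Fintype.card (Gt T ks × Fin (8 * β) → Bool) ≤
      (Fintype.card T * Real.exp (-((β : ℝ) * 2 ^ β / 5)) +
        2 ^ k * (ks.length * 2 ^ M * (1 / 2) ^ (β * s) +
          (((k * (d * s) + k : ℕ) : ℝ) * (1 / 2) ^ β) ^ k)) by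
    rw [hcard, div_le_iff₀ hcpos] at hmain
    refine le_trans (le_of_eq ?_) (hmain.trans (le_of_eq (mul_comm _ _)))
    rw [Finset.card_eq_sum_ones, Finset.sum_filter]
    push_cast
    rfl
  match ks, F, D, hG, hF, hD, hOk0, hOk1, hbad0, hcard, hcpos with
  | [], F, D, hG, hF, hD, hOk0, hOk1, hbad0, hcard, hcpos =>
    have h1 := last h.tz h.bi h.nx h.res h.end_ h.cmp (A0 := T × Fin (8 * β) → Bool)
      (M := M) (s := s) hP0 hOk0 (F := F) hD
    refine h1.trans (add_le_add ?_ (mul_le_mul_of_nonneg_left (add_le_add ?_ le_rfl)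
      (by positivity)))
    · have h2 : few (8 * β) (G0 (T × Fin (8 * β))) ≤ 0 := by
        refine le_of_eq (Finset.sum_eq_zero fun o _ => if_neg ?_)
        rintro ⟨x, hx⟩
        simp [nL, G0] at hx
      exact h2.trans (by positivity)
    · refine (le_of_eq hbad0).trans (by positivity)
  | k' :: ks', F, D, hG, hF, hD, hOk0, hOk1, hbad0, hcard, hcpos =>
    obtain ⟨ν', h1, h2, h3⟩ := chain_ok h hβ (Q := Q) (M := M) (F := F) hs ks'
      (T × (Fin k' → Bool)) 1 (W0 β (Gt (T × (Fin k' → Bool)) ks')) _ _ hG.1 hOk1 hN0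
    obtain ⟨h4, h5, h6⟩ := h.n1 h.bi h.law h.tail h.par β k' ks' ν' hβ hG h2
    obtain ⟨ν'', h1', h2', h3'⟩ := chain_ok h hβ (Q := Q) (M := M) (F := F) hs (k' :: ks')
      T 0 (W0 β (Gt (T × (Fin k' → Bool)) ks')) _ _ hG hOk1 hN0
    have h7 := last h.tz h.bi h.nx h.res h.end_ h.cmp
      (M := M) (s := s) h4 h1 (F := F) hD
    refine h7.trans (add_le_add ?_ (mul_le_mul_of_nonneg_left (add_le_add ?_ le_rfl)
      (by positivity)))
    · refine (few_le h1 h2.nonneg h2.total).trans ?_
      exact mul_le_mul_of_nonneg_left h6 (by positivity)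
    · refine h3'.trans ?_
      rw [Nat.zero_add, hbad0, zero_add, mul_assoc]

open Classical in
theorem wit (h : Pcs) : S_wit := by
  intro β m ks Z _ _ hβ hG
  obtain ⟨hP0, hN0⟩ := h.n0 h.bi h.law β hβ
  have hOk1 : Ok (tβ β) (W0 β (Gt (Z × (Fin m → Bool)) ks)) _ (fun a => up a) :=
    h.nx h.tz h.bi _ (Gt (Z × (Fin m → Bool)) ks) (Fin (8 * β)) _ _ _ _ _ _ hP0
      (ok_G0 (Gt (Z × (Fin m → Bool)) ks × Fin (8 * β)))
  obtain ⟨ν', h1, h2, -⟩ := chain_ok h hβ (Q := Empty) (M := 0) (s := 0)
    (F := fun q => nomatch q) (by rw [Nat.cast_zero, mul_zero]; positivity) ks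
    (Z × (Fin m → Bool)) 0 (W0 β (Gt (Z × (Fin m → Bool)) ks)) _ _ hG.1 hOk1 hN0
  have hcard : (Fintype.card (Gt (Z × (Fin m → Bool)) ks × Fin (8 * β) → Bool) : ℝ) =
      2 ^ Fintype.card (Gt (Z × (Fin m → Bool)) ks × Fin (8 * β)) := by
    rw [Fintype.card_fun, Fintype.card_bool]; push_cast; rfl
  have hcpos : (0 : ℝ) < 2 ^ Fintype.card (Gt (Z × (Fin m → Bool)) ks × Fin (8 * β)) := by
    positivity
  have ht0 := tβ_pos β
  have ht1 : tβ β ≤ 1 := by
    unfold tβ; exact pow_le_one₀ (by norm_num) (by norm_num)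
  have h3 := h.vl _ (Z × (Fin m → Bool)) (tβ β) _ ν' _ ht0.le ht1 h2.total h1
    (fun u => if ∃ z, ∀ y, u (z, y) = false then 1 else 0)
  rw [h2.eq, hcard, div_eq_iff hcpos.ne'] at h3
  have h4 : ((Finset.univ.filter fun a : Gt (Z × (Fin m → Bool)) ks × Fin (8 * β) → Bool =>
      ∃ z, ∀ y, topv ks (up a) (z, y) = false).card : ℝ) =
      ∑ a : Gt (Z × (Fin m → Bool)) ks × Fin (8 * β) → Bool,
        if ∃ z, ∀ y, topv ks (up a) (z, y) = false then (1 : ℝ) else 0 := by
    rw [Finset.card_eq_sum_ones, Finset.sum_filter]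
    push_cast
    rfl
  rw [h4, h3, mul_comm]
  refine mul_le_mul_of_nonneg_left ?_ hcpos.le
  obtain ⟨hp0, hp1⟩ := h.par.2 β ks (by omega) hG.1
  have hp0' : 0 ≤ pOf β ks := (Real.exp_pos _).le.trans hp0
  have hp1' : pOf β ks ≤ 1 := hp1.trans (pow_le_one₀ (by norm_num) (by norm_num))
  have h5 : ∀ z : Z, ∑ u : Z × (Fin m → Bool) → Bool, bn (pOf β ks) u *
      (if ∀ y, u (z, y) = false then 1 else 0) ≤ Real.exp (-(8 * β)) := by
    intro z
    have h6 : ∑ u : Z × (Fin m → Bool) → Bool, bn (pOf β ks) u *
        (if ∀ y, u (z, y) = false then 1 else 0) =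
        ∏ x : Z × (Fin m → Bool), (if x.1 = z then (1 - pOf β ks) else 1) := by
      have h7 := Finset.prod_univ_sum (fun _ : Z × (Fin m → Bool) => (Finset.univ : Finset Bool))
        (fun x b => (if b then pOf β ks else 1 - pOf β ks) *
          (if x.1 = z then (if b = false then (1 : ℝ) else 0) else 1))
      rw [Fintype.piFinset_univ] at h7
      have h8 : ∀ x : Z × (Fin m → Bool), ∑ b : Bool, (if b then pOf β ks else 1 - pOf β ks) *
          (if x.1 = z then (if b = false then (1 : ℝ) else 0) else 1) =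
          if x.1 = z then (1 - pOf β ks) else 1 := by
        intro x
        by_cases hx : x.1 = z <;> simp [hx]
      rw [← Finset.prod_congr rfl fun x _ => h8 x, h7]
      refine Finset.sum_congr rfl fun u _ => ?_
      rw [Finset.prod_mul_distrib]
      unfold bn
      congr 1
      by_cases hu : ∀ y, u (z, y) = false
      · rw [if_pos hu]
        symm
        refine Finset.prod_eq_one fun x _ => ?_
        by_cases hx : x.1 = z
        · rw [if_pos hx, if_pos]
          rw [← hu x.2, ← hx]
        · rw [if_neg hx]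
      · rw [if_neg hu]
        symm
        push Not at hu
        obtain ⟨y, hy⟩ := hu
        refine Finset.prod_eq_zero (Finset.mem_univ (z, y)) ?_
        simp [hy]
    rw [h6, Fintype.prod_prod_type]
    have h9 : ∀ z' : Z, ∏ _y : Fin m → Bool, (if z' = z then (1 - pOf β ks) else 1) =
        if z' = z then (1 - pOf β ks) ^ (2 ^ m) else 1 := by
      intro z'
      split_ifs
      · simp
      · simp
    rw [Finset.prod_congr rfl fun z' _ => h9 z', Finset.prod_ite_eq']
    simp only [Finset.mem_univ, if_true]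
    calc (1 - pOf β ks) ^ (2 ^ m) ≤ Real.exp (-(pOf β ks)) ^ (2 ^ m) := by
          refine pow_le_pow_left₀ (by linarith) ?_ _
          have := Real.add_one_le_exp (-(pOf β ks))
          linarith
      _ = Real.exp (-(2 ^ m * pOf β ks)) := by
          rw [← Real.exp_nat_mul]; congr 1; push_cast; ring
      _ ≤ _ := by
          rw [Real.exp_le_exp]
          linarith [hG.2.1]
  calc _ ≤ ∑ u : Z × (Fin m → Bool) → Bool, ∑ z : Z, bn (pOf β ks) u *
        (if ∀ y, u (z, y) = false then 1 else 0) := by
        refine Finset.sum_le_sum fun u _ => ?_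
        rw [← Finset.mul_sum]
        refine mul_le_mul_of_nonneg_left ?_ (bn_nn hp0' hp1' u)
        split_ifs with hz
        · obtain ⟨z, hz⟩ := hz
          refine le_trans (by rw [if_pos hz]) (Finset.single_le_sum
            (f := fun z => if ∀ y, u (z, y) = false then (1 : ℝ) else 0)
            (fun z _ => by split_ifs <;> norm_num) (Finset.mem_univ z))
        · exact Finset.sum_nonneg fun x _ => by split_ifs <;> norm_num
    _ ≤ _ := by
        rw [Finset.sum_comm]
        refine (Finset.sum_le_sum fun z _ => h5 z).trans (le_of_eq ?_)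
        rw [Finset.sum_const, Finset.card_univ, nsmul_eq_mul]

end Pool.Agent.Lib.MP_2b5695_lc.RO
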