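import Pool.Agent.Lib.MP_2b5695_lc.Alg.Hier
import Pool.Agent.Lib.MP_2b5695_lc.Alg.Enc

/-!
Project RO (random oracle at all levels): definitions.
-/

namespace Pool.Agent.Lib.MP_2b5695_lc.RO

open Pool.Agent.Lib.MP_2b5695_lc.Alg

/-- The random oracle: a word belongs to it with probability `1/2`, independently of the other
words. -/
noncomputable def coin : MeasureTheory.Measure (List Bool → Bool) :=
  MeasureTheory.Measure.infinitePi fun _ => (PMF.uniformOfFintype Bool).toMeasure

instance : MeasureTheory.IsProbabilityMeasure coin := by
  unfold coin; infer_instance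

/-! ### Decision trees -/

/-- Decision trees with queries in `X` and results in `β`. -/
inductive Tree (X β : Type) : Type
  | leaf (b : β) : Tree X β
  | node (x : X) (l r : Tree X β) : Tree X β

namespace Tree

variable {X β : Type}

/-- the result of a decision tree; the right branch is taken if the answer is `true` -/
def eval (v : X → Bool) : Tree X β → β
  | .leaf b => b
  | .node x l r => bif v x then r.eval v else l.eval v

/-- the depth -/
def depth : Tree X β → ℕ
  | .leaf _ => 0
  | .node _ l r => max l.depth r.depth + 1

/-- all queries of the tree satisfy `P` -/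
def All (P : X → Prop) : Tree X β → Prop
  | .leaf _ => True
  | .node x l r => P x ∧ l.All P ∧ r.All P

end Tree

/-- `f` is computed by a decision tree of depth at most `s` -/
def DT {X β : Type} (s : ℕ) (f : (X → Bool) → β) : Prop :=
  ∃ T : Tree X β, T.depth ≤ s ∧ ∀ v, T.eval v = f v

/-- Families of functions that are `m`-fold nested disjunctions of negations of decision trees of
depth at most `s`, with at most `2 ^ M` functions in each family of level at least `1`. -/
def Lev (M s : ℕ) {X : Type} : ℕ → (Q : Type) → (Q → (X → Bool) → Bool) → Prop
  | 0, _, F => ∀ q, DT s (F q)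
  | m + 1, Q, F => Finite Q ∧ Nat.card Q ≤ 2 ^ M ∧
      ∃ (Q' : Type) (F' : Q' → (X → Bool) → Bool) (U : Q → Q' → Prop),
        Lev M s m Q' F' ∧ ∀ q v, F q v = true ↔ ∃ u, U q u ∧ F' u v = false

/-! ### Programs for the polynomial time functions -/

/-- the object itself if its size is at most `N`, otherwise some default object -/
def trunc (c : Ty) (N : ℕ) (v : c.El) : c.El := if c.size v ≤ N then v else c.default

/-- Programs for the functions in `PF`. -/
inductive Code (κ : Ty) : Ty → Ty → Type
  | id (a : Ty) : Code κ a a
  | comp {a b c : Ty} : Code κ b c → Code κ a b → Code κ a c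
  | pair {a b c : Ty} : Code κ a b → Code κ a c → Code κ a (.prod b c)
  | fst (a b : Ty) : Code κ (.prod a b) a
  | snd (a b : Ty) : Code κ (.prod a b) b
  | tt (a : Ty) : Code κ a .bool
  | ff (a : Ty) : Code κ a .bool
  | nil (a b : Ty) : Code κ a (.list b)
  | cons (a : Ty) : Code κ (.prod a (.list a)) (.list a)
  | cond (a : Ty) : Code κ (.prod .bool (.prod a a)) a
  | query : Code κ κ .bool
  | listRec {a b c : Ty} (p : Polynomial ℕ) : Code κ a c →
      Code κ (.prod b (.prod (.list b) (.prod a c))) c → Code κ (.prod (.list b) a) c

/-- recursion on lists with truncated values -/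
def recT {b c : Ty} (bd : List b.El → ℕ) (g : c.El) (h : b.El → List b.El → c.El → c.El) :
    List b.El → c.El
  | [] => trunc c (bd []) g
  | e :: l => trunc c (bd (e :: l)) (h e l (recT bd g h l))

/-- the function computed by a program with the oracle `O` -/
def Code.eval {κ : Ty} (O : κ.El → Bool) : {a b : Ty} → Code κ a b → a.El → b.El
  | _, _, .id _ => fun v => v
  | _, _, .comp g f => fun v => g.eval O (f.eval O v)
  | _, _, .pair f g => fun v => (f.eval O v, g.eval O v)
  | _, _, .fst _ _ => fun v => v.1
  | _, _, .snd _ _ => fun v => v.2
  | _, _, .tt _ => fun _ => true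
  | _, _, .ff _ => fun _ => false
  | _, _, .nil _ _ => fun _ => []
  | _, _, .cons _ => fun v => v.1 :: v.2
  | _, _, .cond _ => fun v => bif v.1 then v.2.1 else v.2.2
  | _, _, .query => fun q => O q
  | .prod (.list b) a, c, .listRec p g h => fun v =>
      recT (fun l => p.eval (Ty.size (.prod (.list b) a) (l, v.2))) (g.eval O v.2)
        (fun e l r => h.eval O (e, l, v.2, r)) v.1

/-- Programs for the properties in `Σ_i^p`. -/
inductive SCode (ι : Ty) : ℕ → Ty → Type
  | base {a : Ty} : Code ι a .bool → SCode ι 0 a
  | ex {i : ℕ} {a : Ty} (b : Ty) (p : Polynomial ℕ) : SCode ι i (.prod a b) → SCode ι (i + 1) a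

/-- the property of objects described by the program, with the oracle `O` -/
def SCode.holds {ι : Ty} (O : ι.El → Bool) : {i : ℕ} → {a : Ty} → SCode ι i a → a.El → Prop
  | _, _, .base C => fun v => C.eval O v = true
  | _, a, .ex b p S => fun v => ∃ u : b.El, b.size u ≤ p.eval (a.size v) ∧ ¬ S.holds O (v, u)

/-! ### Gates -/

/-- The gates: `T` are the top gates, and the children of a gate are indexed by the words of the
length given by the list; the list is ordered from the top to the bottom. -/
@[reducible] def Gt : Type → List ℕ → Type
  | T, [] => T
  | T, k :: ks => Gt (T × (Fin k → Bool)) ks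

instance Gt.fintype : (T : Type) → (ks : List ℕ) → [Fintype T] → Fintype (Gt T ks)
  | _, [], h => h
  | T, k :: ks, _ => Gt.fintype (T × (Fin k → Bool)) ks

instance Gt.decEq : (T : Type) → (ks : List ℕ) → [DecidableEq T] → DecidableEq (Gt T ks)
  | _, [], h => h
  | T, k :: ks, _ => Gt.decEq (T × (Fin k → Bool)) ks

/-- the values of the gates above the gates `X × W`: a gate is `true` if no child is -/
def up {X W : Type} [Fintype W] (v : X × W → Bool) (x : X) : Bool := decide (∀ w, v (x, w) = false)

/-- the values of the top gates, given the values of the gates at the bottom -/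
def topv : {T : Type} → (ks : List ℕ) → (Gt T ks → Bool) → T → Bool
  | _, [] => fun v => v
  | _, k :: ks => fun v => up (topv ks v)

/-- the probability that a top gate is `true`; the gates at the bottom of `Gt T ks` are `true`
with probability `2 ^ (-8 β)` -/
noncomputable def pOf (β : ℕ) : List ℕ → ℝ
  | [] => (1 / 2) ^ (8 * β)
  | k :: ks => (1 - pOf β ks) ^ (2 ^ k)

/-- the numbers of children are such that the expected number of `true` children lies between
`8 β` and `16 β` -/
def Gd (β : ℕ) : List ℕ → Prop
  | [] => True
  | k :: ks => Gd β ks ∧ 8 * (β : ℝ) ≤ 2 ^ k * pOf β ks ∧ 2 ^ k * pOf β ks ≤ 16 * β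

/-! ### Statuses, restrictions and weights -/

/-- The status of a gate under a restriction: its value is known, or it is still free. -/
inductive St
  | fls
  | tru
  | live
  deriving DecidableEq, Fintype

/-- the value of a gate -/
def St.val : St → Bool → Bool
  | .fls, _ => false
  | .tru, _ => true
  | .live, b => b

/-- The restriction of the children (indexed by `W`) of a gate. `(true, S)`: the gate is free; if
its value is `true`, all children are `false`; if its value is `false`, the children in `S` are
`true` and the others `false`. `(false, x)`: the children have the values `x`. -/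
@[reducible] def Bs (W : Type) : Type := Bool × (W → Bool)

/-- the values of the children (those that are not free get the value `false` in both cases) -/
def ph {W : Type} : Bs W → Bool → W → Bool
  | (true, S), b => fun w => S w && !b
  | (false, x), _ => x

/-- the all `false` assignment -/
def zr {W : Type} : W → Bool := fun _ => false

/-- the weight of an assignment, where each variable is `true` with probability `t` -/
noncomputable def bn {X : Type} [Fintype X] (t : ℝ) (v : X → Bool) : ℝ :=
  ∏ x, if v x then t else 1 - t

section

variable {W : Type} [Fintype W]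

/-- the number of free children -/
def nL (c : W → St) : ℕ := (Finset.univ.filter fun w => c w = .live).card

/-- the weight of the assignment `u` of the children, where the free children are `true` with
probability `t` and the others are set to `false` -/
noncomputable def mw (t : ℝ) (c : W → St) (u : W → Bool) : ℝ :=
  ∏ w, if c w = .live then (if u w then t else 1 - t) else (if u w then 0 else 1)

open Classical in
/-- the probability that the gate becomes free, given the statuses of its children; `t` is the
bias of the children, `t'` the bias of the gate -/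
noncomputable def lp (t t' : ℝ) (Lm : ℕ) (c : W → St) : ℝ :=
  if (∀ w, c w ≠ .tru) ∧ Lm ≤ nL c then (1 - t) ^ nL c / (2 * t') else 0

open Classical in
/-- the weight of a restriction of the children -/
noncomputable def bw (t t' : ℝ) (Lm : ℕ) (c : W → St) : Bs W → ℝ
  | (true, S) => if S = zr then 0 else lp t t' Lm c * mw t c S / (1 - (1 - t) ^ nL c)
  | (false, x) => if x = zr then mw t c x - lp t t' Lm c * t' else
      mw t c x * (1 - lp t t' Lm c * (1 - t') / (1 - (1 - t) ^ nL c))

open Classical in
/-- the status of a gate, given the statuses of the children and their restriction -/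
noncomputable def nst (c : W → St) : Bs W → St
  | (true, _) => .live
  | (false, x) => if (∀ w, c w ≠ .tru) ∧ x = zr then .tru else .fls

end

/-! ### Worlds -/

/-- A distribution of restrictions: a finite weighted set of restrictions; each restriction gives
the gates in `X` their statuses, and `B o v` is the assignment (an element of `A0`) if the free
gates have the values `v`. -/
structure World (A0 X : Type) where
  /-- the restrictions -/
  Om : Type
  /-- finiteness -/
  [fin : Fintype Om]
  /-- the weights -/
  wt : Om → ℝ
  /-- the statuses -/
  st : Om → X → St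
  /-- the assignments -/
  B : Om → (X → Bool) → A0

attribute [instance] World.fin

/-- The next restriction, one level higher. -/
noncomputable def World.next {A0 X W : Type} [Fintype X] [DecidableEq X] [Fintype W]
    [DecidableEq W] (t t' : ℝ) (Lm : ℕ) (Γ : World A0 (X × W)) : World A0 X where
  Om := Γ.Om × (X → Bs W)
  wt := fun o => Γ.wt o.1 * ∏ x, bw t t' Lm (fun w => Γ.st o.1 (x, w)) (o.2 x)
  st := fun o x => nst (fun w => Γ.st o.1 (x, w)) (o.2 x)
  B := fun o v => Γ.B o.1 fun y => ph (o.2 y.1) (v y.1) y.2

/-- The law of the status of a gate if the statuses of the children are independent with the law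
`ν`. -/
noncomputable def nlaw (W : Type) [Fintype W] [DecidableEq W] (t t' : ℝ) (Lm : ℕ) (ν : St → ℝ)
    (s : St) : ℝ :=
  ∑ c : W → St, (∏ w, ν (c w)) * ∑ ξ : Bs W, if nst c ξ = s then bw t t' Lm c ξ else 0

/-- The properties of the distributions of restrictions: the assignments `B o v` are uniformly
distributed; the statuses are independent with the law `ν`; `V` gives the values of the gates. -/
structure Ok {A0 X : Type} [Fintype A0] [Fintype X] [DecidableEq X] (t : ℝ) (Γ : World A0 X)
    (ν : St → ℝ) (V : A0 → X → Bool) : Prop where
  nonneg : ∀ o, 0 ≤ Γ.wt o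
  unif : ∀ f : A0 → ℝ, ∑ o, Γ.wt o * ∑ v, bn t v * f (Γ.B o v) = (∑ a, f a) / Fintype.card A0
  insens : ∀ o v v', (∀ x, Γ.st o x = .live → v x = v' x) → Γ.B o v = Γ.B o v'
  value : ∀ o, Γ.wt o ≠ 0 → ∀ v x, V (Γ.B o v) x = (Γ.st o x).val (v x)
  law : ∀ f : (X → St) → ℝ, ∑ o, Γ.wt o * f (Γ.st o) = ∑ s : X → St, (∏ x, ν (s x)) * f s

end Pool.Agent.Lib.MP_2b5695_lc.RO
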