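import Pool.Agent.Lib.MP_2b5695_lc.RO.Base
import Pool.Agent.Lib.MP_2b5695_lc.Nw.EasyDef

/-!
Project RO: the fibres of the event that a program with advice solves most instances.
-/

namespace Pool.Agent.Lib.MP_2b5695_lc.RO

open Pool.Agent.Lib.MP_2b5695_lc.Alg Finset

open Classical in
/-- the event that the program with advice solves most instances `z` of length `n` -/
def Ev (i : ℕ) (κ : Ty) (S : SCode .word i κ)
    (C : Code κ (.prod .word (.prod .word .word)) .word) (r p : Polynomial ℕ) (c : List Bool)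
    (n : ℕ) : Set (List Bool → Bool) :=
  {ω | ∃ α : List Bool, α.length ≤ r.eval (c.length + n + 2) ∧
    2 * (Finset.univ.filter fun z : Fin n → Bool =>
      (∃ y : List Bool, y.length ≤ p.eval (c.length + n) ∧
        Rf ω i (c, (List.ofFn z, y)) = true) ∧
        ¬ Rf ω i (c, (List.ofFn z, C.eval (S.dec ω) (c, (List.ofFn z, α)))) = true).card ≤ 2 ^ n}

/-! ### Finite dependence -/

theorem finite_words (N : ℕ) : Set.Finite {w : List Bool | w.length ≤ N} := by
  have h : {w : List Bool | w.length ≤ N} ⊆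
      ⋃ k ∈ Finset.range (N + 1), Set.range fun f : Fin k → Bool => List.ofFn f := by
    intro w hw
    simp only [Set.mem_iUnion]
    refine ⟨w.length, ?_, fun j => w.get j, List.ofFn_get w⟩
    simpa using Nat.lt_succ_of_le hw
  refine Set.Finite.subset (Set.Finite.biUnion (Finset.finite_toSet _) fun k _ => ?_) h
  exact Set.finite_range _

/-- `P ω` depends only on finitely many bits of `ω` -/
def FinDep {β : Type} (P : (List Bool → Bool) → β) : Prop :=
  ∃ d : Finset (List Bool), ∀ ω ω' : List Bool → Bool, (∀ w ∈ d, ω w = ω' w) → P ω = P ω'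

theorem FinDep.const {β : Type} (b : β) : FinDep fun _ => b := ⟨∅, fun _ _ _ => rfl⟩

theorem FinDep.comp₂ {β γ δ : Type} {P : (List Bool → Bool) → β} {Q : (List Bool → Bool) → γ}
    (hP : FinDep P) (hQ : FinDep Q) (g : β → γ → δ) : FinDep fun ω => g (P ω) (Q ω) := by
  obtain ⟨d, hd⟩ := hP
  obtain ⟨d', hd'⟩ := hQ
  classical
  refine ⟨d ∪ d', fun ω ω' h => ?_⟩
  simp only [hd ω ω' fun w hw => h w (Finset.mem_union_left _ hw),
    hd' ω ω' fun w hw => h w (Finset.mem_union_right _ hw)]

theorem FinDep.forall {J : Type} {β : Type} {P : J → (List Bool → Bool) → β} (s : Set J)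
    (hs : s.Finite) (hP : ∀ j ∈ s, FinDep (P j)) : FinDep fun ω => fun j : s => P j.1 ω := by
  classical
  have : ∀ j : s, ∃ d : Finset (List Bool), ∀ ω ω' : List Bool → Bool,
      (∀ w ∈ d, ω w = ω' w) → P j.1 ω = P j.1 ω' := fun j => hP j.1 j.2
  choose d hd using this
  have : Fintype s := hs.fintype
  refine ⟨Finset.univ.biUnion d, fun ω ω' h => funext fun j => hd j ω ω' fun w hw =>
    h w (Finset.mem_biUnion.2 ⟨j, Finset.mem_univ _, hw⟩)⟩

theorem FinDep.exists {J : Type} {P : J → (List Bool → Bool) → Prop} (s : Set J)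
    (hs : s.Finite) (hP : ∀ j ∈ s, FinDep (P j)) : FinDep fun ω => ∃ j ∈ s, P j ω := by
  obtain ⟨d, hd⟩ := FinDep.forall s hs hP
  refine ⟨d, fun ω ω' h => ?_⟩
  have h1 := hd ω ω' h
  refine propext ⟨?_, ?_⟩
  · rintro ⟨j, hj, hjω⟩
    refine ⟨j, hj, ?_⟩
    have := congrFun h1 ⟨j, hj⟩
    simp only at this
    rwa [← this]
  · rintro ⟨j, hj, hjω⟩
    refine ⟨j, hj, ?_⟩
    have := congrFun h1 ⟨j, hj⟩
    simp only at this
    rwa [this]

theorem FinDep.bit (w : List Bool) : FinDep fun ω => ω w :=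
  ⟨{w}, fun _ _ h => h w (Finset.mem_singleton_self w)⟩

theorem finDep_NN : ∀ (i : ℕ) (v : List (List Bool) × List Bool), FinDep fun ω => NN ω i v
  | 0, v => by
    have h := FinDep.exists (P := fun j ω => ω (List.replicate j true ++ v.2) = true)
      {j | j < (v.1.headD []).length} (Set.finite_lt_nat _)
      fun j _ => (FinDep.bit _).comp₂ (FinDep.const ()) fun b _ => b = true
    exact h
  | i + 1, v => by
    have h := FinDep.exists (P := fun w ω => ¬ NN ω i (v.1.tail, w ++ v.2))
      {w : List Bool | w.length = (v.1.headD []).length}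
      ((finite_words _).subset fun w hw => le_of_eq hw)
      fun w _ => (finDep_NN i _).comp₂ (FinDep.const ()) fun b _ => ¬ b
    exact h

theorem finDep_Rf (i : ℕ) (v : List Bool × (List Bool × List Bool)) :
    FinDep fun ω => Rf ω i v := by
  classical
  exact (finDep_NN i _).comp₂ (FinDep.const ()) fun b _ => decide (_ ∧ ¬ b)

theorem finDep_Ev (hqb : S_qb) (hnum : S_num) (hdep : S_dep) (i : ℕ) (κ : Ty)
    (S : SCode .word i κ) (C : Code κ (.prod .word (.prod .word .word)) .word)
    (r p : Polynomial ℕ) (c : List Bool) (n : ℕ) : FinDep fun ω => ω ∈ Ev i κ S C r p c n := by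
  classical
  have h1 : ∀ (z α : List Bool), FinDep fun ω => C.eval (S.dec ω) (c, (z, α)) :=
    fun z α => hdep hqb hnum i κ _ _ S C (c, (z, α))
  have h2 : ∀ (z α : List Bool),
      FinDep fun ω => Rf ω i (c, (z, C.eval (S.dec ω) (c, (z, α)))) := by
    intro z α
    obtain ⟨d, hd⟩ := h1 z α
    -- the value of the program is constant on the fibres of `d`; take all of them
    have h3 : ∃ d' : Finset (List Bool), d ⊆ d' ∧ ∀ ω ω' : List Bool → Bool,
        (∀ w ∈ d', ω w = ω' w) → Rf ω i (c, (z, C.eval (S.dec ω) (c, (z, α)))) =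
          Rf ω' i (c, (z, C.eval (S.dec ω) (c, (z, α)))) := by
      let ext : (d → Bool) → List Bool → Bool := fun f w => if h : w ∈ d then f ⟨w, h⟩ else false
      have h4 : ∀ f : d → Bool, FinDep fun ω =>
          Rf ω i (c, (z, C.eval (S.dec (ext f)) (c, (z, α)))) := fun f => finDep_Rf i _
      choose e he using h4
      refine ⟨d ∪ Finset.univ.biUnion e, Finset.subset_union_left, fun ω ω' h => ?_⟩
      have h5 : C.eval (S.dec ω) (c, (z, α)) =
          C.eval (S.dec (ext fun w => ω w.1)) (c, (z, α)) := by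
        refine hd _ _ fun w hw => ?_
        simp only [ext, dif_pos hw]
      rw [h5]
      exact he (fun w => ω w.1) ω ω' fun w hw => h w (Finset.mem_union_right _
        (Finset.mem_biUnion.2 ⟨_, Finset.mem_univ _, hw⟩))
    obtain ⟨d', hdd, hd'⟩ := h3
    refine ⟨d', fun ω ω' h => ?_⟩
    have h6 := hd ω ω' fun w hw => h w (hdd hw)
    simp only at h6 ⊢
    rw [hd' ω ω' h, h6]
  have h3 : FinDep fun ω => ∃ α ∈ {α : List Bool | α.length ≤ r.eval (c.length + n + 2)},
      2 * (Finset.univ.filter fun z : Fin n → Bool =>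
      (∃ y ∈ {y : List Bool | y.length ≤ p.eval (c.length + n)},
        Rf ω i (c, (List.ofFn z, y)) = true) ∧
        ¬ Rf ω i (c, (List.ofFn z, C.eval (S.dec ω) (c, (List.ofFn z, α)))) = true).card
          ≤ 2 ^ n := by
    refine FinDep.exists _ (finite_words _) fun α _ => ?_
    have h4 : ∀ z : Fin n → Bool, FinDep fun ω =>
        (∃ y ∈ {y : List Bool | y.length ≤ p.eval (c.length + n)},
        Rf ω i (c, (List.ofFn z, y)) = true) ∧
        ¬ Rf ω i (c, (List.ofFn z, C.eval (S.dec ω) (c, (List.ofFn z, α)))) = true := by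
      intro z
      refine (FinDep.exists _ (finite_words _) fun y _ => ?_).comp₂ (h2 (List.ofFn z) α)
        fun a b => a ∧ ¬ b = true
      exact (finDep_Rf i _).comp₂ (FinDep.const ()) fun b _ => b = true
    obtain ⟨d, hd⟩ := FinDep.forall Set.univ Set.finite_univ fun z _ => h4 z
    refine ⟨d, fun ω ω' h => ?_⟩
    have h5 := hd ω ω' h
    have h6 : (Finset.univ.filter fun z : Fin n → Bool =>
      (∃ y ∈ {y : List Bool | y.length ≤ p.eval (c.length + n)},
        Rf ω i (c, (List.ofFn z, y)) = true) ∧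
        ¬ Rf ω i (c, (List.ofFn z, C.eval (S.dec ω) (c, (List.ofFn z, α)))) = true) =
      (Finset.univ.filter fun z : Fin n → Bool =>
      (∃ y ∈ {y : List Bool | y.length ≤ p.eval (c.length + n)},
        Rf ω' i (c, (List.ofFn z, y)) = true) ∧
        ¬ Rf ω' i (c, (List.ofFn z, C.eval (S.dec ω') (c, (List.ofFn z, α)))) = true) := by
      refine Finset.filter_congr fun z _ => ?_
      exact iff_of_eq (congrFun h5 ⟨z, Set.mem_univ z⟩)
    simp only [h6]
  exact h3

end Pool.Agent.Lib.MP_2b5695_lc.RO
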