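import Pool.Agent.Lib.MP_2b5695_lc.RO.Fib

/-!
Project RO: counting in the fibres.
-/

namespace Pool.Agent.Lib.MP_2b5695_lc.RO

open Pool.Agent.Lib.MP_2b5695_lc.Alg Finset

theorem Tree.restrict {X β γ : Type} (P : X → Prop) (g : β → γ) : ∀ T : Tree X β, T.All P →
    ∃ T' : Tree {x // P x} γ, T'.depth = T.depth ∧
      ∀ v : X → Bool, T'.eval (fun x => v x.1) = g (T.eval v)
  | .leaf b, _ => ⟨.leaf (g b), rfl, fun _ => rfl⟩
  | .node x l r, h => by
    obtain ⟨l', h1, h2⟩ := Tree.restrict P g l h.2.1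
    obtain ⟨r', h3, h4⟩ := Tree.restrict P g r h.2.2
    refine ⟨.node ⟨x, h.1⟩ l' r', by simp [Tree.depth, h1, h3], fun v => ?_⟩
    simp only [Tree.eval, h2, h4]
    cases v x <;> rfl

theorem patch_apply {X : Type} {e : X → List Bool} (he : Function.Injective e)
    (ω : List Bool → Bool) (α : X → Bool) (x : X) : patch e ω α (e x) = α x := by
  classical
  unfold patch
  have h : ∃ y, e y = e x := ⟨x, rfl⟩
  rw [dif_pos h]
  exact congrArg α (he h.choose_spec)

/-- the words of the top gates -/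
def wT {n m : ℕ} (τ : (Fin n → Bool) × (Fin m → Bool)) : List Bool :=
  List.ofFn τ.2 ++ List.ofFn τ.1

theorem wT_length {n m : ℕ} (τ : (Fin n → Bool) × (Fin m → Bool)) :
    (wT τ).length = m + n := by simp [wT]

theorem wT_inj {n m : ℕ} : Function.Injective (wT : (Fin n → Bool) × (Fin m → Bool) → _) := by
  rintro ⟨z, y⟩ ⟨z', y'⟩ h
  unfold wT at h
  have h1 := List.append_inj h (by simp)
  exact Prod.ext (List.ofFn_injective h1.2) (List.ofFn_injective h1.1)

/-- the parameter word -/
def cw (m : ℕ) (ks : List ℕ) (b : ℕ) : List Bool := Alg.enc (.list .word) (ups (m :: ks) b)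

theorem Rf_iff (O : List Bool → Bool) (i m b : ℕ) (ks : List ℕ) (z y : List Bool) :
    Rf O i (cw m ks b, (z, y)) = true ↔ y.length = m ∧ ¬ NN O i (ups ks b, y ++ z) := by
  unfold Rf cw
  rw [dec_enc]
  unfold ups
  simp only [List.map_cons, List.cons_append, List.headD_cons, List.tail_cons,
    List.length_replicate, decide_eq_true_eq]

/-- the advice words -/
def adv {R : ℕ} (a : Fin (R + 1) × (Fin R → Bool)) : List Bool := (List.ofFn a.2).take a.1

theorem exists_adv {R : ℕ} {α : List Bool} (h : α.length ≤ R) :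
    ∃ a : Fin (R + 1) × (Fin R → Bool), adv a = α := by
  refine ⟨(⟨α.length, by omega⟩, fun j => α.getD j false), ?_⟩
  unfold adv
  refine List.ext_getElem (by simp [h]) fun j h1 h2 => ?_
  simp only [List.getElem_take, List.getElem_ofFn, List.getD_eq_getElem?_getD]
  rw [List.getElem?_eq_getElem h2]
  rfl

theorem adv_length {R : ℕ} (a : Fin (R + 1) × (Fin R → Bool)) : (adv a).length ≤ R := by
  unfold adv
  simp

section

variable (hct : S_ct) (hwit : S_wit) (hval : S_val) (hinj : S_inj)
include hct hwit hval hinj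

open Classical in
theorem fibre {i : ℕ} {κ : Ty} {S : SCode .word i κ}
    {C : Code κ (.prod .word (.prod .word .word)) .word} {r p : Polynomial ℕ}
    {n β m : ℕ} {ks : List ℕ} {N d M s k R : ℕ} (hi : ks.length = i) (hβ : 16 ≤ β)
    (hG : Gd β (m :: ks))
    (hp : m ≤ p.eval ((cw m ks (8 * β)).length + n))
    (hR : r.eval ((cw m ks (8 * β)).length + n + 2) ≤ R)
    (hC : ∀ z α : List Bool, z.length = n → α.length ≤ R →
      ∃ T : Tree κ.El (List Bool), T.depth ≤ d ∧ T.All (fun q => κ.size q ≤ N) ∧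
        ∀ O, T.eval O = C.eval O (cw m ks (8 * β), (z, α)))
    (hL : ∀ (X : Type) (e : X → List Bool), Function.Injective e → ∀ ω : List Bool → Bool,
      Lev M s i {q : κ.El // κ.size q ≤ N} (fun q α => S.dec (patch e ω α) q.1))
    (hs1 : 1 ≤ s) (hs : 16 * (s : ℝ) ≤ (3 / 2) ^ β) (hk : 2 * k ≤ 2 ^ n)
    (ω : List Bool → Bool) :
    ((Finset.univ.filter fun a : Gt ((Fin n → Bool) × (Fin m → Bool)) ks × Fin (8 * β) → Bool =>
      patch (eW ks wT (8 * β)) ω a ∈ Ev i κ S C r p (cw m ks (8 * β)) n).card : ℝ) ≤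
    2 ^ Fintype.card (Gt ((Fin n → Bool) × (Fin m → Bool)) ks × Fin (8 * β)) *
      (2 ^ n * Real.exp (-(8 * β)) + ((R + 1) * 2 ^ R) * (2 ^ n) ^ k *
        (2 ^ n * 2 ^ m * Real.exp (-((β : ℝ) * 2 ^ β / 5)) +
        2 ^ k * (i * 2 ^ M * (1 / 2) ^ (β * s) +
          (((k * (d * s) + k : ℕ) : ℝ) * (1 / 2) ^ β) ^ k))) := by
  subst hi
  set X := Gt ((Fin n → Bool) × (Fin m → Bool)) ks × Fin (8 * β) with hX
  set e : X → List Bool := eW ks wT (8 * β) with he
  set c := cw m ks (8 * β) with hc
  have heinj : Function.Injective e := hinj ks (8 * β) (m + n) _ wT wT_inj wT_length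
  -- the trees
  have hT : ∀ (a : Fin (R + 1) × (Fin R → Bool)) (z : Fin n → Bool),
      ∃ T : Tree {q : κ.El // κ.size q ≤ N} ((Fin n → Bool) × (Fin m → Bool)), T.depth ≤ d ∧
        ∀ O : κ.El → Bool, T.eval (fun q => O q.1) =
          (z, fun j : Fin m => (C.eval O (c, (List.ofFn z, adv a))).getD j false) := by
    intro a z
    obtain ⟨T, h1, h2, h3⟩ := hC (List.ofFn z) (adv a) (by simp) (adv_length a)
    obtain ⟨T', h4, h5⟩ := Tree.restrict (fun q => κ.size q ≤ N)
      (fun w : List Bool => (z, fun j : Fin m => w.getD j false)) T h2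
    refine ⟨T', h4.trans_le h1, fun O => ?_⟩
    rw [h5, h3]
  choose Tr hTr1 hTr2 using hT
  -- the two kinds of events
  set E1 : Finset (X → Bool) := Finset.univ.filter fun a => ∃ z, ∀ y,
    topv ks (up a) (z, y) = false with hE1
  set E2 : (Fin (R + 1) × (Fin R → Bool)) → (Fin k → Fin n → Bool) → Finset (X → Bool) :=
    fun al zz => Finset.univ.filter fun a : X → Bool =>
      Function.Injective (fun j => (Tr al (zz j)).eval
        fun q => S.dec (patch e ω a) q.1) ∧
      ∀ j, topv ks (up a) ((Tr al (zz j)).eval fun q => S.dec (patch e ω a) q.1) = true with hE2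
  have hsub : (Finset.univ.filter fun a : X → Bool => patch e ω a ∈ Ev ks.length κ S C r p c n) ⊆
      E1 ∪ Finset.univ.biUnion fun x : (Fin (R + 1) × (Fin R → Bool)) × (Fin k → Fin n → Bool) =>
        E2 x.1 x.2 := by
    intro a ha
    rw [Finset.mem_filter] at ha
    obtain ⟨-, α, hα, hcount⟩ := ha
    by_contra hcon
    rw [Finset.mem_union, not_or] at hcon
    obtain ⟨hc1, hc2⟩ := hcon
    obtain ⟨al, rfl⟩ := exists_adv (hα.trans hR)
    set ω' := patch e ω a with hω'
    -- the values of the top gates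
    have htop : ∀ τ : (Fin n → Bool) × (Fin m → Bool), topv ks (up a) τ = true ↔
        ¬ NN ω' ks.length (ups ks (8 * β), wT τ) := by
      intro τ
      have h1 := hval ω' ks (8 * β) _ wT τ
      have h2 : (fun x : Gt ((Fin n → Bool) × (Fin m → Bool)) ks × Fin (8 * β) =>
          ω' (eW ks wT (8 * β) x)) = a := by
        funext x
        exact patch_apply heinj ω a x
      rw [h2] at h1
      exact h1
    have hwitn : ∀ z : Fin n → Bool, ∃ y : List Bool, y.length ≤ p.eval (c.length + n) ∧
        Rf ω' ks.length (c, (List.ofFn z, y)) = true := by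
      intro z
      have h1 : ¬ ∀ y, topv ks (up a) (z, y) = false := by
        intro h
        exact hc1 (by rw [hE1, Finset.mem_filter]; exact ⟨Finset.mem_univ _, z, h⟩)
      push Not at h1
      obtain ⟨y, hy⟩ := h1
      have hy' : topv ks (up a) (z, y) = true := by simpa using hy
      refine ⟨List.ofFn y, by simpa using hp, ?_⟩
      rw [hc, Rf_iff]
      exact ⟨by simp, (htop (z, y)).1 hy'⟩
    set Sc : Finset (Fin n → Bool) := Finset.univ.filter fun z =>
      Rf ω' ks.length (c, (List.ofFn z, C.eval (S.dec ω') (c, (List.ofFn z, adv al)))) = true with hSc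
    have hcard : k ≤ Sc.card := by
      have h1 : (Finset.univ.filter fun z : Fin n → Bool =>
        (∃ y : List Bool, y.length ≤ p.eval (c.length + n) ∧
          Rf ω' ks.length (c, (List.ofFn z, y)) = true) ∧
          ¬ Rf ω' ks.length (c, (List.ofFn z, C.eval (S.dec ω') (c, (List.ofFn z, adv al)))) = true) =
          Finset.univ.filter fun z : Fin n → Bool =>
          ¬ Rf ω' ks.length (c, (List.ofFn z, C.eval (S.dec ω') (c, (List.ofFn z, adv al)))) = true := by
        refine Finset.filter_congr fun z _ => ?_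
        exact ⟨fun h => h.2, fun h => ⟨hwitn z, h⟩⟩
      rw [h1] at hcount
      have h2 := Finset.card_filter_add_card_filter_not (s := (Finset.univ : Finset (Fin n → Bool)))
        (fun z => Rf ω' ks.length (c, (List.ofFn z, C.eval (S.dec ω') (c, (List.ofFn z, adv al)))) = true)
      rw [Finset.card_univ, Fintype.card_fun, Fintype.card_bool, Fintype.card_fin] at h2
      rw [hSc]
      omega
    obtain ⟨t, ht1, ht2⟩ := Finset.exists_subset_card_eq hcard
    let eq := t.equivFinOfCardEq ht2
    let zz : Fin k → Fin n → Bool := fun j => (eq.symm j).1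
    have hzz : Function.Injective zz := fun j j' h => by
      have := Subtype.ext h
      exact eq.symm.injective this
    refine hc2 (Finset.mem_biUnion.2 ⟨(al, zz), Finset.mem_univ _, ?_⟩)
    simp only [hE2, Finset.mem_filter, Finset.mem_univ, true_and]
    refine ⟨fun j j' h => ?_, fun j => ?_⟩
    · simp only [hTr2] at h
      exact hzz (congrArg Prod.fst h)
    · rw [hTr2 al (zz j) (S.dec ω')]
      have h1 : zz j ∈ Sc := ht1 (eq.symm j).2
      rw [hSc, Finset.mem_filter, hc, Rf_iff] at h1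
      obtain ⟨-, h2, h3⟩ := h1
      rw [htop]
      have h4 : wT (zz j, fun l : Fin m =>
          (C.eval (S.dec ω') (c, (List.ofFn (zz j), adv al))).getD l false) =
          C.eval (S.dec ω') (c, (List.ofFn (zz j), adv al)) ++ List.ofFn (zz j) := by
        unfold wT
        congr 1
        refine List.ext_getElem (by simp [h2, hc]) fun j h1 h2 => ?_
        simp at h1 h2 ⊢
        simp [h2]
      rw [h4]
      exact h3
  have hE1c : (E1.card : ℝ) ≤ 2 ^ Fintype.card X * (2 ^ n * Real.exp (-(8 * β))) := by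
    have h1 := hwit β m ks (Fin n → Bool) hβ hG
    have h2 : (Fintype.card (Fin n → Bool) : ℝ) = 2 ^ n := by simp
    rw [h2] at h1
    exact h1
  have hE2c : ∀ al zz, ((E2 al zz).card : ℝ) ≤ 2 ^ Fintype.card X *
      (2 ^ n * 2 ^ m * Real.exp (-((β : ℝ) * 2 ^ β / 5)) +
        2 ^ k * (ks.length * 2 ^ M * (1 / 2) ^ (β * s) +
          (((k * (d * s) + k : ℕ) : ℝ) * (1 / 2) ^ β) ^ k)) := by
    intro al zz
    have hL' := hL X e heinj ω
    have h1 := hct β ks ((Fin n → Bool) × (Fin m → Bool)) {q : κ.El // κ.size q ≤ N} M s k d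
      (fun q α => S.dec (patch e ω α) q.1) (fun j => Tr al (zz j)) hβ hG.1 hs1 hs hL'
      (fun j => hTr1 al (zz j))
    have h2 : (Fintype.card ((Fin n → Bool) × (Fin m → Bool)) : ℝ) = 2 ^ n * 2 ^ m := by simp
    rw [h2] at h1
    exact h1
  have hfin : (((Finset.univ.filter fun a : X → Bool =>
      patch e ω a ∈ Ev ks.length κ S C r p c n).card : ℕ) : ℝ) ≤ (E1.card : ℝ) +
      ∑ x : (Fin (R + 1) × (Fin R → Bool)) × (Fin k → Fin n → Bool), ((E2 x.1 x.2).card : ℝ) := by
    have h1 := (Finset.card_le_card hsub).trans (Finset.card_union_le _ _)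
    have h2 := Finset.card_biUnion_le (s := (Finset.univ :
      Finset ((Fin (R + 1) × (Fin R → Bool)) × (Fin k → Fin n → Bool))))
      (t := fun x => E2 x.1 x.2)
    exact_mod_cast h1.trans (Nat.add_le_add_left h2 _)
  refine hfin.trans ?_
  rw [mul_add]
  refine add_le_add hE1c ?_
  refine (Finset.sum_le_sum fun x _ => hE2c x.1 x.2).trans (le_of_eq ?_)
  rw [Finset.sum_const, Finset.card_univ, nsmul_eq_mul]
  have h1 : (Fintype.card ((Fin (R + 1) × (Fin R → Bool)) × (Fin k → Fin n → Bool)) : ℝ) =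
      ((R + 1) * 2 ^ R) * (2 ^ n) ^ k := by
    simp
  rw [h1]
  ring

end

end Pool.Agent.Lib.MP_2b5695_lc.RO
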