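import Pool.Agent.Lib.MP_2b5695_lc.RO.Fib2
import Pool.Agent.Lib.MP_2b5695_lc.Nw.Size

/-!
Project RO: the event has small probability.
-/

namespace Pool.Agent.Lib.MP_2b5695_lc.RO

open Pool.Agent.Lib.MP_2b5695_lc.Alg Finset

theorem size_ups_le (l : List ℕ) (K b : ℕ) (h : ∀ k ∈ l, k ≤ K) :
    Ty.size (.list .word) (ups l b) ≤ l.length * (2 * K + 1) + (2 * b + 1) := by
  unfold ups
  rw [size_append]
  have h1 : Ty.size (.list .word) [List.replicate b true] = 2 * b + 1 := by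
    rw [size_cons, size_nil, size_word, List.length_replicate]
  rw [h1]
  refine Nat.add_le_add_right ?_ _
  induction l with
  | nil => exact Nat.zero_le _
  | cons k l ih =>
    rw [List.map_cons, size_cons, size_word, List.length_replicate, List.length_cons]
    have h2 := ih fun k hk => h k (List.mem_cons_of_mem _ hk)
    have h3 := h k List.mem_cons_self
    have h4 : (l.length + 1) * (2 * K + 1) = l.length * (2 * K + 1) + (2 * K + 1) := by ring
    omega

theorem exists_le_two_pow (H : Polynomial ℕ) : ∃ n0 : ℕ, ∀ n : ℕ, n0 ≤ n →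
    H.eval n ≤ 2 ^ n := by
  obtain ⟨a, ha⟩ := Nw.exists_pow_le H
  have h1 : Filter.Tendsto (fun n : ℕ => ((n : ℝ) ^ a) / 2 ^ n) Filter.atTop (nhds 0) := by
    have := tendsto_pow_const_div_const_pow_of_one_lt a (r := (2 : ℝ)) (by norm_num)
    exact this
  have h2 : Filter.Tendsto (fun n : ℕ => (((n + 2 : ℕ) : ℝ) ^ a) / 2 ^ (n + 2)) Filter.atTop
      (nhds 0) := h1.comp (Filter.tendsto_add_atTop_nat 2)
  have h3 := (h2.eventually (gt_mem_nhds (show (0 : ℝ) < 1 / 4 by norm_num))).exists_forall_of_atTop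
  obtain ⟨n0, hn0⟩ := h3
  refine ⟨n0, fun n hn => ?_⟩
  have h4 := hn0 n hn
  rw [div_lt_iff₀ (by positivity)] at h4
  have h5 : ((n + 2 : ℕ) : ℝ) ^ a ≤ 2 ^ n := by
    refine h4.le.trans (le_of_eq ?_)
    rw [pow_add]; ring
  refine (ha n).trans ?_
  exact_mod_cast h5

theorem pw {a b n : ℕ} (h : a + n ≤ b) : (2 : ℝ) ^ a * (1 / 2) ^ b ≤ (1 / 2) ^ n := by
  have h1 : (1 / 2 : ℝ) ^ b ≤ (1 / 2) ^ (a + n) :=
    pow_le_pow_of_le_one (by norm_num) (by norm_num) h
  calc (2 : ℝ) ^ a * (1 / 2) ^ b ≤ 2 ^ a * (1 / 2) ^ (a + n) :=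
        mul_le_mul_of_nonneg_left h1 (by positivity)
    _ = (2 * (1 / 2)) ^ a * (1 / 2) ^ n := by rw [pow_add, mul_pow]; ring
    _ = (1 / 2) ^ n := by norm_num

/-- the pieces about programs and the problem -/
structure Pcs2 : Prop where
  qb : S_qb
  num : S_num
  mono : S_mono
  lev : S_lev
  dep : S_dep
  mem : S_mem
  val : S_val
  inj : S_inj
  par : S_par
  ct : S_ct
  wit : S_wit
  mea : S_mea
  cod : S_cod
  cnt : S_cnt

/-- the numerical estimate -/
theorem final_bound {i n m M s k d R : ℕ} (hn : 4 ≤ n) (hk : k = R + n + 2)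
    (hs : M + k + i + 1 ≤ s) (h2 : k * (d * s) + k ≤ 2 ^ n)
    (h3 : 2 * R + n * k + 2 * n + m ≤ 2 ^ n) :
    (2 ^ n * Real.exp (-(8 * ((4 * n : ℕ) : ℝ))) + ((R + 1) * 2 ^ R) * (2 ^ n) ^ k *
        (2 ^ n * 2 ^ m * Real.exp (-(((4 * n : ℕ) : ℝ) * 2 ^ (4 * n) / 5)) +
        2 ^ k * (i * 2 ^ M * (1 / 2) ^ (4 * n * s) +
          (((k * (d * s) + k : ℕ) : ℝ) * (1 / 2) ^ (4 * n)) ^ k))) ≤ 4 * (1 / 2) ^ n := by
  have hR : ((R : ℝ) + 1) ≤ 2 ^ R := by
    have := Nat.lt_two_pow_self (n := R)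
    exact_mod_cast this
  have hi : (i : ℝ) ≤ 2 ^ i := by
    have := (Nat.lt_two_pow_self (n := i)).le
    exact_mod_cast this
  have hA : ((R + 1) * 2 ^ R) * (2 ^ n) ^ k ≤ (2 : ℝ) ^ (2 * R + n * k) := by
    calc ((R + 1) * 2 ^ R) * (2 ^ n) ^ k ≤ ((2 : ℝ) ^ R * 2 ^ R) * (2 ^ n) ^ k := by gcongr
      _ = _ := by rw [← pow_mul, ← pow_add, ← pow_add]; congr 1; ring
  have hexp : ∀ x : ℕ, Real.exp (-(x : ℝ)) ≤ (1 / 2) ^ x := by
    intro x
    have h4 : Real.exp (-(x : ℝ)) = Real.exp (-1) ^ x := by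
      rw [← Real.exp_nat_mul]; congr 1; ring
    rw [h4]
    refine pow_le_pow_left₀ (Real.exp_pos _).le ?_ _
    rw [Real.exp_neg, one_div]
    refine inv_anti₀ (by norm_num) ?_
    have := Real.exp_one_gt_d9
    linarith
  -- first term
  have t1 : 2 ^ n * Real.exp (-(8 * ((4 * n : ℕ) : ℝ))) ≤ (1 / 2) ^ n := by
    have h4 := hexp (8 * (4 * n))
    push_cast at h4 ⊢
    exact (mul_le_mul_of_nonneg_left h4 (by positivity)).trans (pw (by omega))
  -- second term
  have t2 : (((R : ℝ) + 1) * 2 ^ R) * (2 ^ n) ^ k *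
      (2 ^ n * 2 ^ m * Real.exp (-(((4 * n : ℕ) : ℝ) * 2 ^ (4 * n) / 5))) ≤ (1 / 2) ^ n := by
    have h4 : Real.exp (-(((4 * n : ℕ) : ℝ) * 2 ^ (4 * n) / 5)) ≤ (1 / 2) ^ (2 ^ n) := by
      refine le_trans ?_ (hexp (2 ^ n))
      rw [Real.exp_le_exp, neg_le_neg_iff]
      push_cast
      have h5 : (2 : ℝ) ^ n ≤ 2 ^ (4 * n) := pow_le_pow_right₀ (by norm_num) (by omega)
      have h6 : (4 : ℝ) ≤ n := by exact_mod_cast hn
      nlinarith [pow_pos (show (0 : ℝ) < 2 by norm_num) (4 * n)]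
    calc _ ≤ (2 : ℝ) ^ (2 * R + n * k) * (2 ^ n * 2 ^ m * (1 / 2) ^ (2 ^ n)) := by gcongr
      _ = 2 ^ (2 * R + n * k + (n + m)) * (1 / 2) ^ (2 ^ n) := by
          rw [pow_add _ (2 * R + n * k), pow_add _ n m]; ring
      _ ≤ _ := pw (by omega)
  -- third term
  have t3 : (((R : ℝ) + 1) * 2 ^ R) * (2 ^ n) ^ k *
      (2 ^ k * ((i : ℝ) * 2 ^ M * (1 / 2) ^ (4 * n * s))) ≤ (1 / 2) ^ n := by
    calc _ ≤ (2 : ℝ) ^ (2 * R + n * k) * (2 ^ k * (2 ^ i * 2 ^ M * (1 / 2) ^ (4 * n * s))) := by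
          gcongr
      _ = 2 ^ (2 * R + n * k + (k + (i + M))) * (1 / 2) ^ (4 * n * s) := by
          rw [pow_add _ (2 * R + n * k), pow_add _ k, pow_add _ i]; ring
      _ ≤ _ := by
          refine pw ?_
          have h5 : 4 * n * (M + k + i + 1) ≤ 4 * n * s := Nat.mul_le_mul_left _ hs
          refine le_trans ?_ h5
          subst hk
          nlinarith [Nat.zero_le (n * R), Nat.zero_le (n * M), Nat.zero_le (n * i),
            Nat.mul_le_mul hn (Nat.zero_le R |> fun _ => le_refl R),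
            Nat.mul_le_mul hn (le_refl M), Nat.mul_le_mul hn (le_refl i)]
  -- fourth term
  have t4 : (((R : ℝ) + 1) * 2 ^ R) * (2 ^ n) ^ k *
      (2 ^ k * (((k * (d * s) + k : ℕ) : ℝ) * (1 / 2) ^ (4 * n)) ^ k) ≤ (1 / 2) ^ n := by
    have h5 : ((k * (d * s) + k : ℕ) : ℝ) ≤ 2 ^ n := by exact_mod_cast h2
    calc _ ≤ (2 : ℝ) ^ (2 * R + n * k) * (2 ^ k * (2 ^ n * (1 / 2) ^ (4 * n)) ^ k) := by
          gcongr
      _ = 2 ^ (2 * R + n * k + (k + n * k)) * (1 / 2) ^ (4 * n * k) := by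
          rw [pow_add _ (2 * R + n * k), pow_add _ k, mul_pow, ← pow_mul, ← pow_mul]; ring
      _ ≤ _ := by
          refine pw ?_
          subst hk
          nlinarith [Nat.zero_le (n * R), Nat.mul_le_mul hn (le_refl R)]
  calc _ = 2 ^ n * Real.exp (-(8 * ((4 * n : ℕ) : ℝ))) +
        (((R + 1) * 2 ^ R) * (2 ^ n) ^ k *
          (2 ^ n * 2 ^ m * Real.exp (-(((4 * n : ℕ) : ℝ) * 2 ^ (4 * n) / 5))) +
        (((R + 1) * 2 ^ R) * (2 ^ n) ^ k * (2 ^ k * (i * 2 ^ M * (1 / 2) ^ (4 * n * s))) +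
        ((R + 1) * 2 ^ R) * (2 ^ n) ^ k *
          (2 ^ k * (((k * (d * s) + k : ℕ) : ℝ) * (1 / 2) ^ (4 * n)) ^ k))) := by ring
    _ ≤ (1 / 2) ^ n + ((1 / 2) ^ n + ((1 / 2) ^ n + (1 / 2) ^ n)) := by
        refine add_le_add t1 (add_le_add t2 (add_le_add t3 t4))
    _ = _ := by ring

open Classical in
theorem card_inst {X : Type} [Fintype X] (i1 i2 : DecidableEq X) (P : (X → Bool) → Prop) :
    (Finset.filter P (@Finset.univ (X → Bool)
      (@Pi.instFintype X (fun _ => Bool) i1 _ fun _ => Bool.fintype))).card =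
    (Finset.filter P (@Finset.univ (X → Bool)
      (@Pi.instFintype X (fun _ => Bool) i2 _ fun _ => Bool.fintype))).card := by
  have h : i1 = i2 := Subsingleton.elim _ _
  subst h
  rfl

theorem small_Ev (h : Pcs2) (i : ℕ) (κ : Ty) (S : SCode .word i κ)
    (C : Code κ (.prod .word (.prod .word .word)) .word) (r p : Polynomial ℕ)
    (hp : ∀ c : List Bool, ((Alg.dec (.list .word) c).headD []).length ≤ p.eval c.length)
    {ε : ℝ} (hε : 0 < ε) : ∃ (c : List Bool) (n : ℕ), coin.real (Ev i κ S C r p c n) ≤ ε := by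
  classical
  obtain ⟨rC, hrC⟩ := h.qb κ _ _ C
  obtain ⟨MS, sS, hLev⟩ := h.lev h.qb h.num h.mono i κ S
  obtain ⟨Pe, hPe⟩ := Nw.exists_enc_le (.list .word)
  let u : Polynomial ℕ := Polynomial.C (i + 1) * (480 * Polynomial.X + 1) +
    (64 * Polynomial.X + 1)
  let c1 : Polynomial ℕ := Pe.comp u
  let R_ : Polynomial ℕ := r.comp (c1 + Polynomial.X + 2)
  let I_ : Polynomial ℕ := 2 * c1 + (2 * Polynomial.X + 2 * R_)
  let N_ : Polynomial ℕ := rC.comp I_
  let M_ : Polynomial ℕ := MS.comp N_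
  let s0_ : Polynomial ℕ := sS.comp N_
  let k_ : Polynomial ℕ := R_ + Polynomial.X + 2
  let s_ : Polynomial ℕ := M_ + s0_ + k_ + Polynomial.C (i + 1)
  let H_ : Polynomial ℕ := 16 * s_ + (k_ * (N_ * s_) + k_) + 2 * k_ +
    (2 * R_ + Polynomial.X * k_ + 2 * Polynomial.X + 240 * Polynomial.X)
  obtain ⟨n0, hn0⟩ := exists_le_two_pow H_
  obtain ⟨n1, hn1⟩ := exists_pow_lt_of_lt_one (show (0 : ℝ) < ε / 4 by positivity)
    (show (1 / 2 : ℝ) < 1 by norm_num)
  set n := n0 + n1 + 4 with hn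
  have hn4 : 4 ≤ n := by omega
  have hH := hn0 n (by omega)
  obtain ⟨l, hl1, hl2, hl3⟩ := h.par.1 (i + 1) (4 * n) (by omega)
  obtain ⟨m, ks, rfl⟩ : ∃ m ks, l = m :: ks := by
    cases l with
    | nil => simp at hl1
    | cons m ks => exact ⟨m, ks, rfl⟩
  have hks : ks.length = i := by simpa using hl1
  set c := cw m ks (8 * (4 * n)) with hc
  have hm : m ≤ 240 * n := by
    have := hl3 m List.mem_cons_self
    omega
  have hclen : c.length ≤ c1.eval n := by
    have h1 := hPe (ups (m :: ks) (8 * (4 * n)))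
    have h2 := size_ups_le (m :: ks) (60 * (4 * n)) (8 * (4 * n)) hl3
    refine h1.trans ?_
    simp only [c1, Polynomial.eval_comp]
    refine eval_mono Pe (h2.trans ?_)
    simp only [u, Polynomial.eval_add, Polynomial.eval_mul, Polynomial.eval_C,
      Polynomial.eval_X, Polynomial.eval_one, Polynomial.eval_ofNat]
    rw [hl1]
    refine Nat.add_le_add (Nat.mul_le_mul_left _ ?_) ?_ <;> omega
  have hR : r.eval (c.length + n + 2) ≤ R_.eval n := by
    simp only [R_, Polynomial.eval_comp, Polynomial.eval_add, Polynomial.eval_X,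
      Polynomial.eval_ofNat]
    exact eval_mono r (by omega)
  have hk : k_.eval n = R_.eval n + n + 2 := by
    simp only [k_, Polynomial.eval_add, Polynomial.eval_X, Polynomial.eval_ofNat]
  have hs : s_.eval n = M_.eval n + s0_.eval n + k_.eval n + (i + 1) := by
    simp only [s_, Polynomial.eval_add, Polynomial.eval_C]
  have hHe : H_.eval n = 16 * s_.eval n + (k_.eval n * (N_.eval n * s_.eval n) + k_.eval n) +
      2 * k_.eval n + (2 * R_.eval n + n * k_.eval n + 2 * n + 240 * n) := by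
    simp only [H_, Polynomial.eval_add, Polynomial.eval_mul, Polynomial.eval_X,
      Polynomial.eval_ofNat]
  rw [hHe] at hH
  set R := R_.eval n
  set k := k_.eval n
  set N := N_.eval n with hN
  set M := M_.eval n with hM
  set s := s_.eval n
  set s0 := s0_.eval n with hs0
  have hMN : M = MS.eval N := by rw [hM, hN]; simp only [M_, Polynomial.eval_comp]
  have hsN : s0 = sS.eval N := by rw [hs0, hN]; simp only [s0_, Polynomial.eval_comp]
  have hG := hl2
  refine ⟨c, n, ?_⟩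
  obtain ⟨d0, hd0⟩ := finDep_Ev h.qb h.num h.dep i κ S C r p c n
  have hheinj : Function.Injective (eW ks (wT : (Fin n → Bool) × (Fin m → Bool) → _)
      (8 * (4 * n))) := h.inj ks _ (m + n) _ wT wT_inj wT_length
  refine h.mea (Gt ((Fin n → Bool) × (Fin m → Bool)) ks × Fin (8 * (4 * n)))
    (eW ks wT (8 * (4 * n))) hheinj _ d0 ε (fun ω ω' hw => iff_of_eq (hd0 ω ω' hw)) fun ω => ?_
  have h1 := fibre h.ct h.wit h.val h.inj (i := i) (κ := κ) (S := S) (C := C) (r := r) (p := p)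
    (n := n) (β := 4 * n) (m := m) (ks := ks) (N := N) (d := N) (M := M) (s := s) (k := k)
    (R := R) hks (by omega) hG
    (by
      have h2 := hp c
      rw [hc, cw, dec_enc] at h2
      have h3 : ((ups (m :: ks) (8 * (4 * n))).headD []).length = m := by
        unfold ups
        simp only [List.map_cons, List.cons_append, List.headD_cons, List.length_replicate]
      rw [h3] at h2
      exact h2.trans (eval_mono p (by rw [cw]; omega)))
    hR
    (by
      intro z α hz hα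
      obtain ⟨-, T, h3, h4, h5⟩ := hrC (cw m ks (8 * (4 * n)), (z, α))
      have h6 : rC.eval (Ty.size (.prod .word (.prod .word .word))
          (cw m ks (8 * (4 * n)), (z, α))) ≤ N := by
        rw [hN]
        simp only [N_, Polynomial.eval_comp]
        refine eval_mono rC ?_
        simp only [I_, Polynomial.eval_add, Polynomial.eval_mul, Polynomial.eval_X,
          Polynomial.eval_ofNat]
        simp only [size_prod, size_word]
        rw [hz, ← hc]
        have : R = R_.eval n := rfl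
        omega
      refine ⟨T, h3.trans h6, ?_, h5⟩
      have hmono : ∀ T : Tree κ.El (List Bool), T.All (fun q => κ.size q ≤
          rC.eval (Ty.size (.prod .word (.prod .word .word)) (cw m ks (8 * (4 * n)), (z, α)))) →
          T.All (fun q => κ.size q ≤ N) := by
        intro T
        induction T with
        | leaf b => intro _; trivial
        | node x l r ihl ihr => intro hT; exact ⟨hT.1.trans h6, ihl hT.2.1, ihr hT.2.2⟩
      exact hmono T h4)
    (by
      intro X e he ω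
      have h3 := hLev N X e he ω
      exact h.mono _ _ _ _ _ _ _ _ (by rw [hMN]) (by rw [hs, hsN]; omega) h3)
    (by omega)
    (by
      have h3 : 16 * s ≤ 2 ^ n := by omega
      have h4 : (16 * (s : ℝ)) ≤ 2 ^ n := by exact_mod_cast h3
      refine h4.trans ?_
      rw [pow_mul]
      exact pow_le_pow_left₀ (by norm_num) (by norm_num) _)
    (by omega) ω
  refine le_trans (le_of_eq (congrArg (Nat.cast (R := ℝ)) (card_inst _ _ _)))
    ((h1.trans (le_of_eq (mul_comm _ _))).trans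
      (mul_le_mul_of_nonneg_right ?_ (by positivity)))
  refine (final_bound hn4 hk (by omega) (by omega) (by omega)).trans ?_
  have h3 : (1 / 2 : ℝ) ^ n ≤ (1 / 2) ^ n1 := pow_le_pow_of_le_one (by norm_num) (by norm_num)
    (by omega)
  linarith

end Pool.Agent.Lib.MP_2b5695_lc.RO
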