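import Pool.Agent.Lib.MP_2b5695_lc.RO.Defs
import Pool.Agent.Lib.MP_2b5695_lc.LvSwitch

/-!
Project RO (random oracle at all levels): the statements of the pieces.
-/

namespace Pool.Agent.Lib.MP_2b5695_lc.RO

open Pool.Agent.Lib.MP_2b5695_lc.Alg Finset

/-! ### Block A: programs -/

open Classical in
/-- the characteristic function of a set -/
noncomputable def ind {α : Type} (A : Set α) (x : α) : Bool := decide (x ∈ A)

open Classical in
/-- the property as a Boolean function -/
noncomputable def SCode.dec {ι : Ty} {i : ℕ} {a : Ty} (S : SCode ι i a) (O : ι.El → Bool)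
    (v : a.El) : Bool := decide (S.holds O v)

/-- [cnt] there are countably many programs. (`Ty` is countable: `deriving instance Countable for
Ty`; `Polynomial ℕ` is countable; for `Code` show by induction on `n` that for all `a b` the set of
the programs with at most `n` constructors is countable, using countable unions over the
intermediate type of `comp`.) -/
def S_cnt : Prop := Countable Ty ∧ (∀ κ a b : Ty, Countable (Code κ a b)) ∧
  ∀ (ι : Ty) (i : ℕ) (a : Ty), Countable (SCode ι i a)

/-- [cod] the functions in `PF` and the properties in `Σ_i^p` have programs. (Induction; for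
`listRec` the truncations do nothing, by the bound of the `PF` rule.) -/
def S_cod : Prop :=
  (∀ (κ : Ty) (B : Set κ.El) (a b : Ty) (f : a.El → b.El), PF B a b f →
    ∃ C : Code κ a b, ∀ v, C.eval (ind B) v = f v) ∧
  ∀ (ι : Ty) (A : Set ι.El) (i : ℕ) (a : Ty) (L : a.El → Prop), InSigma A i a L →
    ∃ S : SCode ι i a, ∀ v, L v ↔ S.holds (ind A) v

/-- [qb] a program asks polynomially many questions of polynomial size: for every input its value
as a function of the oracle is a decision tree of polynomial depth with queries of polynomial size,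
and the result has polynomial size. (Induction on the program; for `listRec` induction on the list,
all intermediate results have size at most `p(..) + size of the default object`.) -/
def S_qb : Prop :=
  ∀ (κ a b : Ty) (C : Code κ a b), ∃ r : Polynomial ℕ, ∀ v : a.El,
    (∀ O, b.size (C.eval O v) ≤ r.eval (a.size v)) ∧
    ∃ T : Tree κ.El b.El, T.depth ≤ r.eval (a.size v) ∧
      T.All (fun q => κ.size q ≤ r.eval (a.size v)) ∧ ∀ O, T.eval O = C.eval O v

/-- [num] the number of objects of size at most `N` is at most `2 ^ P(N)`. (`Alg.enc` is injective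
by `dec_enc`, and `Nw.exists_enc_le` bounds the length of the code.) -/
def S_num : Prop :=
  ∀ a : Ty, ∃ P : Polynomial ℕ, ∀ N, Finite {v : a.El // a.size v ≤ N} ∧
    Nat.card {v : a.El // a.size v ≤ N} ≤ 2 ^ P.eval N

open Classical in
/-- the oracle `ω` changed to `α` on the words `e x` -/
noncomputable def patch {X : Type} (e : X → List Bool) (ω : List Bool → Bool) (α : X → Bool)
    (w : List Bool) : Bool :=
  if h : ∃ x, e x = w then α h.choose else ω w

/-- [mono] -/
def S_mono : Prop :=
  ∀ (M M' s s' m : ℕ) (X Q : Type) (F : Q → (X → Bool) → Bool), M ≤ M' → s ≤ s' →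
    Lev M s m Q F → Lev M' s' m Q F

/-- [lev] the properties in `Σ_i^p` of objects of size at most `N` are functions of level `i` of
the oracle, with polynomial parameters. Induction on the program, with [qb] (base case: the
query `w` is answered by the variable `x` if `e x = w` and is constant otherwise) and [num]
(`Q' = {v : (a × b).El // size v ≤ N + p(N)}`, `U q q'` iff `q' = (q, u)` for some `u` with
`size u ≤ p(size q)`) and [mono]. -/
def S_lev : Prop :=
  S_qb → S_num → S_mono → ∀ (i : ℕ) (a : Ty) (S : SCode .word i a), ∃ M s : Polynomial ℕ,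
    ∀ (N : ℕ) (X : Type) (e : X → List Bool), Function.Injective e →
      ∀ ω : List Bool → Bool, Lev (M.eval N) (s.eval N) i {q : a.El // a.size q ≤ N}
        (fun q α => S.dec (patch e ω α) q.1)

/-- [dep] the value of a program whose oracle is a property in `Σ_i^p` depends only on finitely
many bits of the oracle -/
def S_dep : Prop :=
  S_qb → S_num → ∀ (i : ℕ) (κ a b : Ty) (S : SCode .word i κ) (C : Code κ a b) (v : a.El),
    ∃ d : Finset (List Bool), ∀ ω ω' : List Bool → Bool, (∀ w ∈ d, ω w = ω' w) →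
      C.eval (S.dec ω) v = C.eval (S.dec ω') v

/-! ### Block B: the search problem -/

/-- The negated gate values: `NN O i (ps, x)`, where `ps` contains the numbers of children in
unary, from the top to the bottom. -/
def NN (O : List Bool → Bool) : ℕ → List (List Bool) × List Bool → Prop
  | 0, v => ∃ j, j < (v.1.headD []).length ∧ O (List.replicate j true ++ v.2) = true
  | i + 1, v => ∃ w : List Bool, w.length = (v.1.headD []).length ∧ ¬ NN O i (v.1.tail, w ++ v.2)

open Classical in
/-- The search problem of level `i`: given `c` (a code of numbers `m, k_i, …, k_1, b` in unary) and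
`z`, find `y` of length `m` such that the gate `y ++ z` is `true`. -/
noncomputable def Rf (O : List Bool → Bool) (i : ℕ) (v : List Bool × (List Bool × List Bool)) :
    Bool :=
  decide (v.2.2.length = ((Alg.dec (.list .word) v.1).headD []).length ∧
    ¬ NN O i ((Alg.dec (.list .word) v.1).tail, v.2.2 ++ v.2.1))

/-- [mem] the search problem is decidable in polynomial time with a `Σ_i^p` oracle (one query), and
the solutions have polynomial length. (`NN` is in `Σ_i^p` by induction with `InSigma.comp`,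
`InSigma.or`; `PF.dec`, `PF.headD`, `PF.tail`, `PF.append`, `PF.lengthLE`.) -/
def S_mem : Prop :=
  (∀ (A : Set (List Bool)) (i : ℕ), ∃ (κ : Ty) (B : Set κ.El),
    InSigma (ι := .word) A i κ (fun q => q ∈ B) ∧
    PF B (.prod .word (.prod .word .word)) .bool (Rf (ind A) i)) ∧
  ∃ p : Polynomial ℕ, ∀ c : List Bool,
    ((Alg.dec (.list .word) c).headD []).length ≤ p.eval c.length

/-- the unary parameters -/
def ups (ks : List ℕ) (b : ℕ) : List (List Bool) :=
  (ks.map fun k => List.replicate k true) ++ [List.replicate b true]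

/-- the word of a gate; `wT` gives the words of the top gates -/
def wd : (T : Type) → (ks : List ℕ) → (T → List Bool) → Gt T ks → List Bool
  | _, [], wT => wT
  | T, k :: ks, wT => wd (T × (Fin k → Bool)) ks fun p => List.ofFn p.2 ++ wT p.1

/-- the oracle bits below a gate at the bottom -/
def eW {T : Type} (ks : List ℕ) (wT : T → List Bool) (b : ℕ) (x : Gt T ks × Fin b) : List Bool :=
  List.replicate x.2 true ++ wd T ks wT x.1

/-- [val] the value of a top gate -/
def S_val : Prop :=
  ∀ (O : List Bool → Bool) (ks : List ℕ) (b : ℕ) (T : Type) (wT : T → List Bool) (τ : T),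
    topv ks (up fun x : Gt T ks × Fin b => O (eW ks wT b x)) τ = true ↔
      ¬ NN O ks.length (ups ks b, wT τ)

/-- [inj] the words of the bits are different -/
def S_inj : Prop :=
  ∀ (ks : List ℕ) (b L : ℕ) (T : Type) (wT : T → List Bool), Function.Injective wT →
    (∀ τ, (wT τ).length = L) → Function.Injective (eW ks wT b)

/-- [par] parameters exist and are small; bounds for the probabilities -/
def S_par : Prop :=
  (∀ i : ℕ, ∀ β : ℕ, 1 ≤ β → ∃ ks : List ℕ, ks.length = i ∧ Gd β ks ∧ ∀ k ∈ ks, k ≤ 60 * β) ∧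
  ∀ (β : ℕ) (ks : List ℕ), 1 ≤ β → Gd β ks →
    Real.exp (-32 * β) ≤ pOf β ks ∧ pOf β ks ≤ (1 / 2) ^ (8 * β)

/-! ### Block C: one level of restrictions -/

/-- [tz] tensorization: sum first over the values `u x = φ x (π x)` -/
def S_tz : Prop :=
  ∀ (X P U : Type) [Fintype X] [DecidableEq X] [Fintype P] [Fintype U] [DecidableEq U]
    (φ : X → P → U) (a : X → P → (X → U) → ℝ) (f : (X → U) → ℝ),
    ∑ π : X → P, (∏ x, a x (π x) fun y => φ y (π y)) * f (fun y => φ y (π y)) =
      ∑ u : X → U, (∏ x, ∑ q : P, if φ x q = u x then a x q u else 0) * f u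

/-- the conditions on the parameters of one level -/
structure Par (t t' : ℝ) (Lm : ℕ) : Prop where
  pos : 0 < t
  le : t ≤ 1 / 2
  pos' : 0 < t'
  le' : t' ≤ 1 / 2
  one_le : 1 ≤ Lm
  small : (1 - t) ^ Lm ≤ t'

/-- [bi] the identities for the weights of one block -/
def S_bi : Prop :=
  ∀ (W : Type) [Fintype W] [DecidableEq W] (t t' : ℝ) (Lm : ℕ) (c : W → St), Par t t' Lm →
    (∀ ξ, 0 ≤ bw t t' Lm c ξ) ∧ ∑ ξ, bw t t' Lm c ξ = 1 ∧
    (∀ ξ, bw t t' Lm c ξ ≠ 0 → ∀ w, ξ.2 w = true → c w = .live) ∧
    (∀ S, bw t t' Lm c (true, S) ≠ 0 → (∀ w, c w ≠ .tru) ∧ S ≠ zr) ∧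
    (∀ u, 0 ≤ mw t c u) ∧ mw t c zr = (1 - t) ^ nL c ∧
    (∀ u : W → Bool, ∑ q : Bs W × Bool, (if ph q.1 q.2 = u then
      bw t t' Lm c q.1 * (if q.2 then t' else 1 - t') else 0) = mw t c u) ∧
    (∀ u : W → Bool, ∑ v : W → Bool, (if (fun w => v w && decide (c w = .live)) = u then
      bn t v else 0) = mw t c u) ∧
    ((∀ w, c w ≠ .tru) → Lm ≤ nL c → ∑ q : Bs W × Bool, (if ph q.1 q.2 = zr then
      bw t t' Lm c q.1 * (if q.2 then t' else 1 - t') * (if nst c q.1 = .live then 1 else 0)
      else 0) = mw t c zr / 2)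

/-- [nx] the next distribution of restrictions has the required properties. `nonneg`: clear.
`unif`: by `insens` for `Γ` and [tz], [bi] both sides are `∑ o, wt o * ∑ u, ∏ x, mw t c_x (u x) *
f (B o u)`. `law`: [tz] with `P = Bs W`, `U = St`, then `Γ.law` and expansion of the product over
`X` of the sums over `W → St` (currying `X × W → St`). -/
def S_nx : Prop :=
  S_tz → S_bi → ∀ (A0 X W : Type) [Fintype A0] [Nonempty A0] [Fintype X] [DecidableEq X]
    [Fintype W] [DecidableEq W] (t t' : ℝ) (Lm : ℕ) (Γ : World A0 (X × W)) (ν : St → ℝ)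
    (V : A0 → X × W → Bool), Par t t' Lm → Ok t Γ ν V →
    Ok t' (Γ.next t t' Lm) (nlaw W t t' Lm ν) (fun a => up (V a))

open Classical in
/-- [res] given the assignment, a `true` gate is free with probability `1 / 2` -/
def S_res : Prop :=
  S_tz → S_bi → ∀ (A0 X W : Type) [Fintype A0] [Nonempty A0] [Fintype X] [DecidableEq X]
    [Fintype W] [DecidableEq W] (t t' : ℝ) (Lm : ℕ) (Γ : World A0 (X × W)) (ν : St → ℝ)
    (V : A0 → X × W → Bool), Par t t' Lm → Ok t Γ ν V →
    ∀ (k : ℕ) (out : A0 → Finset X) (f : A0 → ℝ), (∀ a, 0 ≤ f a) → (∀ a, f a ≤ 1) →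
    (∀ a, f a ≠ 0 → (out a).card ≤ k ∧ ∀ x ∈ out a, up (V a) x = true) →
    (∑ a, f a) / Fintype.card A0 ≤
      (∑ o, if ∃ x, nL (fun w => Γ.st o (x, w)) < Lm then Γ.wt o else 0) +
      2 ^ k * ∑ o, (Γ.next t t' Lm).wt o * ∑ v, bn t' v * (f ((Γ.next t t' Lm).B o v) *
        if ∀ x ∈ out ((Γ.next t t' Lm).B o v), (Γ.next t t' Lm).st o x = .live then 1 else 0)

open Classical in
/-- [kap] the weight of the free states that are changed to a given state by setting the variables
in `N` to `false` -/
def S_kap : Prop :=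
  ∀ (W : Type) [Fintype W] [DecidableEq W] (t t' : ℝ) (Lm : ℕ) (c : W → St), Par t t' Lm →
    ∀ (N : Finset W) (x : W → Bool), (N.card : ℝ) * t ≤ 1 / 2 →
      ∑ S : W → Bool, (if S ≠ zr ∧ ∀ w, x w = (S w && !decide (w ∈ N)) then
        bw t t' Lm c (true, S) else 0) ≤
      4 * (1 - t) ^ Lm / t' * bw t t' Lm c (false, x)

open Classical in
/-- [sw] the weighted switching lemma (adapt `LvSwitch.lean`). A canonical path asks the value of
a gate `g` of a free variable `(g, u)`, `u ∈ S_g`, of the first term that is not falsified; the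
answer `true` gives `(false, zr)` and the answer `false` gives `(false, S_g)`. The encoding sets the
block `g` to `(false, S_g minus N)`, `N` the variables of the block that are negated in the term.
For a code `c` of length `k`, the sum of the weights of all `ρ` that are coded by `(c, ρ')` is at
most `κ ^ k` times the weight of `ρ'` (induction on `k`, with the product over the blocks that
have not been changed). -/
def S_sw : Prop :=
  ∀ (V W : Type) [Fintype V] [DecidableEq V] [Fintype W] [DecidableEq W] (s : ℕ) (κ : ℝ)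
    (w : V → Bs W → ℝ), (∀ g ξ, 0 ≤ w g ξ) → (∀ g, ∑ ξ, w g ξ = 1) → 0 ≤ κ →
    (∀ g (N : Finset W) (x : W → Bool), N.card ≤ s →
      ∑ S : W → Bool, (if S ≠ zr ∧ ∀ u, x u = (S u && !decide (u ∈ N)) then w g (true, S) else 0)
        ≤ κ * w g (false, x)) →
    ∀ (f : (V × W → Bool) → Prop), Cert1 s f → ∀ k : ℕ,
      ∑ ρ : V → Bs W, (if DT k (fun z : V → Bool => decide (f fun y => ph (ρ y.1) (z y.1) y.2))
        then 0 else ∏ g, w g (ρ g)) ≤ (4 * s * κ) ^ k

/-- [sub] restrictions do not increase the level -/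
def S_sub : Prop :=
  ∀ (M s m : ℕ) (X W Q : Type) (F : Q → (X × W → Bool) → Bool) (ξ : X → Bs W),
    Lev M s m Q F → Lev M s m Q fun q v => F q fun y => ph (ξ y.1) (v y.1) y.2

/-- [clp] the functions that must become decision trees -/
def S_clp : Prop :=
  ∀ (M s m : ℕ) (X W Q : Type) (F : Q → (X × W → Bool) → Bool), Lev M s (m + 1) Q F →
    ∃ (J : Type) (g : J → (X × W → Bool) → Bool), Finite J ∧ Nat.card J ≤ 2 ^ M ∧
      (∀ j, Cert1 s fun α => g j α = true) ∧
      ∀ ξ : X → Bs W, (∀ j, DT s fun v : X → Bool => g j fun y => ph (ξ y.1) (v y.1) y.2) →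
        Lev M s m Q fun q v => F q fun y => ph (ξ y.1) (v y.1) y.2

open Classical in
/-- [col] the probability that the level does not drop -/
def S_col : Prop :=
  S_bi → S_kap → S_sw → S_clp → ∀ (A0 X W Q : Type) [Fintype A0] [Nonempty A0] [Fintype X]
    [DecidableEq X] [Fintype W] [DecidableEq W] (t t' : ℝ) (Lm : ℕ) (Γ : World A0 (X × W))
    (ν : St → ℝ) (V : A0 → X × W → Bool) (M s m : ℕ) (F : Q → A0 → Bool), Par t t' Lm →
    Ok t Γ ν V → (s : ℝ) * t ≤ 1 / 2 →
    (∑ o, if Lev M s m Q (fun q v => F q ((Γ.next t t' Lm).B o v)) then 0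
      else (Γ.next t t' Lm).wt o) ≤
    (∑ o, if Lev M s (m + 1) Q (fun q v => F q (Γ.B o v)) then 0 else Γ.wt o) +
      2 ^ M * (16 * s * (1 - t) ^ Lm / t') ^ s

open Classical in
/-- [tail] large deviations -/
def S_tail : Prop :=
  ∀ (W : Type) [Fintype W] [DecidableEq W] (ν : St → ℝ) (Lm : ℕ), (∀ s, 0 ≤ ν s) →
    ∑ s, ν s = 1 →
    (∑ c : W → St, if nL c < Lm then ∏ w, ν (c w) else 0) ≤
      Real.exp (Lm - 0.63 * (Fintype.card W * ν .live))

open Classical in
/-- [law] the law of the next statuses -/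
def S_law : Prop :=
  S_bi → ∀ (W : Type) [Fintype W] [DecidableEq W] (ν : St → ℝ) (t t' : ℝ) (Lm : ℕ),
    Par t t' Lm → (∀ s, 0 ≤ ν s) → ∑ s, ν s = 1 →
    (∀ s, 0 ≤ nlaw W t t' Lm ν s) ∧ ∑ s, nlaw W t t' Lm ν s = 1 ∧
    nlaw W t t' Lm ν .tru + t' * nlaw W t t' Lm ν .live =
      (1 - (ν .tru + t * ν .live)) ^ Fintype.card W ∧
    ((1 - (ν .tru + t * ν .live)) ^ Fintype.card W -
      ∑ c : W → St, if nL c < Lm then ∏ w, ν (c w) else 0) / (2 * t') ≤ nlaw W t t' Lm ν .live

/-! ### Block D: the chain and the end -/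

/-- the bias at all levels but the lowest -/
noncomputable def tβ (β : ℕ) : ℝ := (1 / 2) ^ β

/-- the least number of free children -/
def Lβ (β : ℕ) : ℕ := 2 * β * 2 ^ β

/-- the numerical conditions on the law of the statuses -/
structure Num (β : ℕ) (p : ℝ) (ν : St → ℝ) : Prop where
  nonneg : ∀ s, 0 ≤ ν s
  total : ∑ s, ν s = 1
  eq : ν .tru + tβ β * ν .live = p
  le : 7 / 8 * (p / (2 * tβ β)) ≤ ν .live

/-- [n0] the law above the bits (all bits are free with bias `1 / 2`) -/
def S_n0 : Prop :=
  S_bi → S_law → ∀ β : ℕ, 16 ≤ β → Par (1 / 2) (tβ β) (8 * β) ∧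
    Num β ((1 / 2) ^ (8 * β))
      (nlaw (Fin (8 * β)) (1 / 2) (tβ β) (8 * β) (fun s => if s = .live then 1 else 0))

open Classical in
/-- [n1] the numerical conditions are kept, and few gates have few free children -/
def S_n1 : Prop :=
  S_bi → S_law → S_tail → S_par → ∀ (β k : ℕ) (ks : List ℕ) (ν : St → ℝ), 16 ≤ β →
    Gd β (k :: ks) → Num β (pOf β ks) ν →
    Par (tβ β) (tβ β) (Lβ β) ∧
    Num β (pOf β (k :: ks)) (nlaw (Fin k → Bool) (tβ β) (tβ β) (Lβ β) ν) ∧
    (∑ c : (Fin k → Bool) → St, if nL c < Lβ β then ∏ w, ν (c w) else 0) ≤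
      Real.exp (-((β : ℝ) * 2 ^ β / 5))

/-- the distribution of restrictions, from the bits to the gates in `Gt T ks` -/
noncomputable def W0 (β : ℕ) (X : Type) [Fintype X] [DecidableEq X] :
    World (X × Fin (8 * β) → Bool) X :=
  World.next (1 / 2) (tβ β) (8 * β)
    { Om := Unit, wt := fun _ => 1, st := fun _ _ => .live, B := fun _ v => v }

/-- from the gates in `Gt T ks` to the top gates -/
noncomputable def chain (β : ℕ) {A0 : Type} : {T : Type} → [Fintype T] → [DecidableEq T] →
    (ks : List ℕ) → World A0 (Gt T ks) → World A0 T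
  | _, _, _, [] => fun Γ => Γ
  | _, _, _, _ :: ks => fun Γ => World.next (tβ β) (tβ β) (Lβ β) (chain β ks Γ)

open Classical in
/-- [end] a decision tree of depth `d` finds `k` `true` variables with small probability -/
def S_end : Prop :=
  ∀ (X : Type) [Fintype X] [DecidableEq X] (t : ℝ), 0 ≤ t → t ≤ 1 → ∀ (k d : ℕ)
    (g : (X → Bool) → Fin k → X), DT d g →
    ∑ v : X → Bool, (if Function.Injective (g v) ∧ ∀ j, v (g v j) = true then bn t v else 0) ≤
      ((d + k) * t) ^ k

/-- [cmp] composition of decision trees -/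
def S_cmp : Prop :=
  (∀ (X Q β : Type) (d s : ℕ) (T : Tree Q β) (F : Q → (X → Bool) → Bool), T.depth ≤ d →
    (∀ q, DT s (F q)) → DT (d * s) fun v => T.eval fun q => F q v) ∧
  ∀ (X β : Type) (k d : ℕ) (g : Fin k → (X → Bool) → β), (∀ j, DT d (g j)) →
    DT (k * d) fun v j => g j v

/-- [vl] the values of the gates are independent -/
def S_vl : Prop :=
  ∀ (A0 X : Type) [Fintype A0] [Nonempty A0] [Fintype X] [DecidableEq X] (t : ℝ)
    (Γ : World A0 X) (ν : St → ℝ) (V : A0 → X → Bool), 0 ≤ t → t ≤ 1 → (∑ s, ν s = 1) →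
    Ok t Γ ν V → ∀ f : (X → Bool) → ℝ,
    (∑ a, f (V a)) / Fintype.card A0 = ∑ u : X → Bool, bn (ν .tru + t * ν .live) u * f u

open Classical in
/-- [ct] the main combinatorial theorem: algorithms with oracles of level `|ks|` do not find `k`
different `true` top gates -/
def S_ct : Prop :=
  ∀ (β : ℕ) (ks : List ℕ) (T Q : Type) [Fintype T] [DecidableEq T] [Nonempty T] (M s k d : ℕ)
    (F : Q → (Gt T ks × Fin (8 * β) → Bool) → Bool) (D : Fin k → Tree Q T),
    16 ≤ β → Gd β ks → 1 ≤ s → 16 * (s : ℝ) ≤ (3 / 2) ^ β →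
    Lev M s ks.length Q F → (∀ j, (D j).depth ≤ d) →
    ((Finset.univ.filter fun a : Gt T ks × Fin (8 * β) → Bool =>
      Function.Injective (fun j => (D j).eval fun q => F q a) ∧
      ∀ j, topv ks (up a) ((D j).eval fun q => F q a) = true).card : ℝ) ≤
    2 ^ Fintype.card (Gt T ks × Fin (8 * β)) *
      (Fintype.card T * Real.exp (-((β : ℝ) * 2 ^ β / 5)) +
        2 ^ k * (ks.length * 2 ^ M * (1 / 2) ^ (β * s) +
          (((k * (d * s) + k : ℕ) : ℝ) * (1 / 2) ^ β) ^ k))

open Classical in
/-- [wit] all `z` have solutions with high probability -/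
def S_wit : Prop :=
  ∀ (β : ℕ) (m : ℕ) (ks : List ℕ) (Z : Type) [Fintype Z] [DecidableEq Z], 16 ≤ β →
    Gd β (m :: ks) →
    ((Finset.univ.filter fun a : Gt (Z × (Fin m → Bool)) ks × Fin (8 * β) → Bool =>
      ∃ z, ∀ y, topv ks (up a) (z, y) = false).card : ℝ) ≤
    2 ^ Fintype.card (Gt (Z × (Fin m → Bool)) ks × Fin (8 * β)) *
      (Fintype.card Z * Real.exp (-(8 * β)))

/-! ### Block E: measure -/

open Classical in
/-- [mea] -/
def S_mea : Prop :=
  ∀ (X : Type) [Fintype X] (e : X → List Bool), Function.Injective e →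
    ∀ (S : Set (List Bool → Bool)) (d : Finset (List Bool)) (ε : ℝ),
    (∀ ω ω' : List Bool → Bool, (∀ w ∈ d, ω w = ω' w) → (ω ∈ S ↔ ω' ∈ S)) →
    (∀ ω, ((Finset.univ.filter fun α : X → Bool => patch e ω α ∈ S).card : ℝ) ≤
      ε * 2 ^ Fintype.card X) →
    coin.real S ≤ ε

end Pool.Agent.Lib.MP_2b5695_lc.RO
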